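import Pool.Agent.W2helper77.OP.Fin

/-!
`θ(p') - θ(p)` is of the order of `(p' - 1/2) ^ (5/36) - (p - 1/2) ^ (5/36)`, for all
`1/2 ≤ p ≤ p'` near `1/2`.
-/

set_option autoImplicit false
set_option maxHeartbeats 1000000

namespace Pool.Agent.W2helper77.OP

open H974

/-- The two elementary inequalities for the power `5/36`. -/
theorem pow_cmp {s t : ℝ} (hs : 0 < s) (hst : s ≤ t) :
    t^(5/36 : ℝ) - s^(5/36 : ℝ) ≤ (t - s) * t^(-(31/36) : ℝ) ∧
    (t - s) * t^(-(31/36) : ℝ) ≤ 36/5 * (t^(5/36 : ℝ) - s^(5/36 : ℝ)) := by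
  have ht : 0 < t := by linarith
  have e1 : s^(5/36 : ℝ) = t^(5/36 : ℝ) * (s/t)^(5/36 : ℝ) := by
    rw [← Real.mul_rpow ht.le (by positivity)]
    congr 1
    field_simp
  have e2 : (t - s) * t^(-(31/36) : ℝ) = t^(5/36 : ℝ) * (1 - s/t) := by
    have : t^(5/36 : ℝ) = t^(-(31/36) : ℝ) * t := by
      nth_rw 3 [← Real.rpow_one t]
      rw [← Real.rpow_add ht]
      norm_num
    rw [this]
    field_simp
  have hx0 : 0 < s/t := by positivity
  have hx1 : s/t ≤ 1 := (div_le_one ht).2 hst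
  have h5 : 0 < t^(5/36 : ℝ) := by positivity
  have g1 : s/t ≤ (s/t)^(5/36 : ℝ) := by
    have := Real.rpow_le_rpow_of_exponent_ge hx0 hx1 (show (5/36 : ℝ) ≤ 1 by norm_num)
    rwa [Real.rpow_one] at this
  have g2 : (s/t)^(5/36 : ℝ) ≤ 1 + 5/36 * (s/t - 1) := by
    have := rpow_one_add_le_one_add_mul_self (s := s/t - 1) (by linarith) (p := 5/36)
      (by norm_num) (by norm_num)
    rwa [add_sub_cancel] at this
  rw [e1, e2]
  constructor
  · nlinarith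
  · nlinarith

/-- The increments of `θ`, for `1/2 < p ≤ p'`. -/
theorem main_pos : ∃ δ c C : ℝ, 0 < δ ∧ δ ≤ 1/4 ∧ 0 < c ∧ 0 < C ∧
    (∀ (p p' : unitInterval) (s t : ℝ), (p:ℝ) = 1/2 + s → (p':ℝ) = 1/2 + t → 0 < s → s ≤ t →
      t ≤ δ →
      c * (t^(5/36 : ℝ) - s^(5/36 : ℝ)) ≤ theta p' - theta p ∧
      theta p' - theta p ≤ C * (t^(5/36 : ℝ) - s^(5/36 : ℝ))) ∧
    ∀ (p' : unitInterval) (t : ℝ), (p':ℝ) = 1/2 + t → 0 < t → t ≤ δ →
      theta p' ≤ C * t^(5/36 : ℝ) := by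
  obtain ⟨δ, c, C, hδ, hδ4, hc, hC, hloc⟩ := main_loc
  refine ⟨δ, c, 36/5 * C, hδ, hδ4, hc, by positivity, ?_, ?_⟩
  · have key : ∀ k : ℕ, ∀ (p p' : unitInterval) (s t : ℝ), (p:ℝ) = 1/2 + s → (p':ℝ) = 1/2 + t →
        0 < s → s ≤ t → t ≤ 2^k * s → t ≤ δ →
        c * (t^(5/36 : ℝ) - s^(5/36 : ℝ)) ≤ theta p' - theta p ∧
        theta p' - theta p ≤ 36/5 * C * (t^(5/36 : ℝ) - s^(5/36 : ℝ)) := by
      have loc : ∀ (p p' : unitInterval) (s t : ℝ), (p:ℝ) = 1/2 + s → (p':ℝ) = 1/2 + t →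
          0 < s → s ≤ t → t ≤ 2 * s → t ≤ δ →
          c * (t^(5/36 : ℝ) - s^(5/36 : ℝ)) ≤ theta p' - theta p ∧
          theta p' - theta p ≤ 36/5 * C * (t^(5/36 : ℝ) - s^(5/36 : ℝ)) := by
        intro p p' s t hp hp' hs hst hts htδ
        obtain ⟨h1, h2, -⟩ := hloc p p' s t hp hp' hs hst hts htδ
        obtain ⟨g1, g2⟩ := pow_cmp hs hst
        constructor
        · exact (mul_le_mul_of_nonneg_left g1 hc.le).trans h1
        · refine h2.trans ((mul_le_mul_of_nonneg_left g2 hC.le).trans (le_of_eq ?_))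
          ring
      intro k
      induction k with
      | zero =>
        intro p p' s t hp hp' hs hst hts htδ
        rw [pow_zero, one_mul] at hts
        exact loc p p' s t hp hp' hs hst (by linarith) htδ
      | succ k ih =>
        intro p p' s t hp hp' hs hst hts htδ
        obtain ⟨u, hu⟩ : ∃ u : ℝ, u = max s (t/2) := ⟨_, rfl⟩
        have hsu : s ≤ u := by rw [hu]; exact le_max_left _ _
        have hut : u ≤ t := by rw [hu]; exact max_le hst (by linarith)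
        have htu : t ≤ 2 * u := by
          have : t/2 ≤ u := by rw [hu]; exact le_max_right _ _
          linarith
        have huk : u ≤ 2^k * s := by
          rw [hu]
          apply max_le
          · have : (1:ℝ) ≤ 2^k := one_le_pow₀ (by norm_num)
            nlinarith
          · rw [pow_succ] at hts
            linarith
        have hu0 : 0 < u := by linarith
        have hmem : (1/2 + u) ∈ unitInterval := ⟨by linarith, by linarith⟩
        obtain ⟨a1, a2⟩ := ih p ⟨1/2 + u, hmem⟩ s u hp rfl hs hsu huk (by linarith)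
        obtain ⟨b1, b2⟩ := loc ⟨1/2 + u, hmem⟩ p' u t rfl hp' hu0 hut htu htδ
        constructor
        · linarith
        · linarith
    intro p p' s t hp hp' hs hst htδ
    obtain ⟨k, hk⟩ := exists_nat_gt (t / s)
    apply key k p p' s t hp hp' hs hst _ htδ
    have h1 : (k:ℝ) ≤ 2^k := by
      have : k ≤ 2^k := Nat.lt_two_pow_self.le
      exact_mod_cast this
    rw [div_lt_iff₀ hs] at hk
    nlinarith
  · intro p' t hp' ht htδ
    have h3 := (hloc p' p' t t hp' hp' ht le_rfl (by linarith) htδ).2.2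
    have : 0 < t^(5/36 : ℝ) := by positivity
    nlinarith

/-- The increments of `θ`, for `1/2 ≤ p ≤ p'`. -/
theorem main : ∃ δ c C : ℝ, 0 < δ ∧ 0 < c ∧ 0 < C ∧
    ∀ p p' : unitInterval, 1/2 ≤ (p:ℝ) → p ≤ p' → (p':ℝ) ≤ 1/2 + δ →
      c * (((p':ℝ) - 1/2)^(5/36 : ℝ) - ((p:ℝ) - 1/2)^(5/36 : ℝ)) ≤ theta p' - theta p ∧
      theta p' - theta p ≤ C * (((p':ℝ) - 1/2)^(5/36 : ℝ) - ((p:ℝ) - 1/2)^(5/36 : ℝ)) := by
  obtain ⟨δ, c, C, hδ, hδ4, hc, hC, hmain, hup⟩ := main_pos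
  obtain ⟨b, hb⟩ : ∃ b : ℝ, b = 1 - (1/2 : ℝ)^(5/36 : ℝ) := ⟨_, rfl⟩
  have hb1 : (1/2 : ℝ)^(5/36 : ℝ) < 1 :=
    Real.rpow_lt_one (by norm_num) (by norm_num) (by norm_num)
  have hb0 : 0 < b := by rw [hb]; linarith
  have hble : b ≤ 1 := by
    rw [hb]
    have : 0 < (1/2 : ℝ)^(5/36 : ℝ) := by positivity
    linarith
  refine ⟨δ, c * b, C, hδ, by positivity, hC, ?_⟩
  intro p p' hp hpp hp'
  have hpp' : (p:ℝ) ≤ p' := hpp
  rcases eq_or_lt_of_le hp with heq | hlt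
  · -- `p = 1/2`
    have h0 : theta p = 0 := theta_half_le (le_of_eq heq.symm)
    have e0 : ((p:ℝ) - 1/2)^(5/36 : ℝ) = 0 := by
      rw [← heq, sub_self, Real.zero_rpow (by norm_num)]
    rw [h0, e0, sub_zero, sub_zero]
    rcases eq_or_lt_of_le (heq ▸ hpp' : (1/2:ℝ) ≤ p') with heq' | hlt'
    · have h0' : theta p' = 0 := theta_half_le (le_of_eq heq'.symm)
      have e0' : ((p':ℝ) - 1/2)^(5/36 : ℝ) = 0 := by
        rw [← heq', sub_self, Real.zero_rpow (by norm_num)]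
      rw [h0', e0', mul_zero, mul_zero]
      exact ⟨le_rfl, le_rfl⟩
    · obtain ⟨t, ht⟩ : ∃ t : ℝ, t = (p':ℝ) - 1/2 := ⟨_, rfl⟩
      have ht0 : 0 < t := by linarith
      have htδ : t ≤ δ := by linarith
      have hpt : (p':ℝ) = 1/2 + t := by linarith
      rw [← ht]
      have hmem : (1/2 + t/2) ∈ unitInterval := ⟨by linarith, by linarith⟩
      obtain ⟨a1, -⟩ := hmain ⟨1/2 + t/2, hmem⟩ p' (t/2) t rfl hpt (by linarith) (by linarith) htδ
      have a2 := hup p' t hpt ht0 htδ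
      have a3 : 0 ≤ theta ⟨1/2 + t/2, hmem⟩ := MeasureTheory.measureReal_nonneg
      have a4 : (t/2)^(5/36 : ℝ) = t^(5/36 : ℝ) * (1/2 : ℝ)^(5/36 : ℝ) := by
        rw [← Real.mul_rpow ht0.le (by norm_num)]
        congr 1
        ring
      rw [a4] at a1
      refine ⟨?_, a2⟩
      have a5 : c * b * t^(5/36 : ℝ) =
          c * (t^(5/36 : ℝ) - t^(5/36 : ℝ) * (1/2 : ℝ)^(5/36 : ℝ)) := by rw [hb]; ring
      rw [a5]
      linarith
  · obtain ⟨a1, a2⟩ := hmain p p' ((p:ℝ) - 1/2) ((p':ℝ) - 1/2) (by ring) (by ring) (by linarith)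
      (by linarith) (by linarith)
    refine ⟨?_, a2⟩
    refine le_trans ?_ a1
    have h1 : 0 ≤ ((p':ℝ) - 1/2)^(5/36 : ℝ) - ((p:ℝ) - 1/2)^(5/36 : ℝ) := by
      have := Real.rpow_le_rpow (z := 5/36) (show 0 ≤ (p:ℝ) - 1/2 by linarith)
        (show (p:ℝ) - 1/2 ≤ (p':ℝ) - 1/2 by linarith) (by norm_num)
      linarith
    apply mul_le_mul_of_nonneg_right _ h1
    nlinarith

end Pool.Agent.W2helper77.OP
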