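import Pool.Agent.W2helper77.OP.LowDet
import Pool.Agent.H974R4.W2.HarrisC
import Pool.Agent.H974R2.Glue
import Pool.Agent.H31R3.Kes.Defs

/-!
A pivotal edge of the one-arm event from the separated four-arm event: probabilities.
-/

set_option autoImplicit false
set_option maxHeartbeats 1000000

namespace Pool.Agent.W2helper77.OP

open H974 H12S Finset

theorem loc_sdiff {P : Finset Edg → Prop} {T U : Finset Edg} (hP : ∀ F, P F ↔ P (F ∩ T))
    (hd : Disjoint T U) (F : Finset Edg) : P F ↔ P (F \ U) := by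
  rw [hP F, hP (F \ U)]
  have e : (F \ U) ∩ T = F ∩ T := by
    ext g
    simp only [Finset.mem_inter, Finset.mem_sdiff]
    constructor
    · rintro ⟨⟨h1, -⟩, h2⟩; exact ⟨h1, h2⟩
    · rintro ⟨h1, h2⟩; exact ⟨⟨h1, Finset.disjoint_left.1 hd h2⟩, h2⟩
  rw [e]

theorem loc_inter {P : Finset Edg → Prop} {T U : Finset Edg} (hP : ∀ F, P F ↔ P (F ∩ T))
    (hd : T ⊆ U) (F : Finset Edg) : P F ↔ P (F ∩ U) := by
  rw [hP F, hP (F ∩ U)]
  have e : (F ∩ U) ∩ T = F ∩ T := by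
    ext g
    simp only [Finset.mem_inter]
    constructor
    · rintro ⟨⟨h1, -⟩, h2⟩; exact ⟨h1, h2⟩
    · rintro ⟨h1, h2⟩; exact ⟨⟨h1, hd h2⟩, h2⟩
  rw [e]

theorem mem_tr {s t x y : ℤ} {b : Bool} {T : Finset Edg} :
    ((x, y, b) : Edg) ∈ (trl s t).mp T ↔ ((x - s, y - t, b) : Edg) ∈ T := by
  rw [LSym.mem_mp, trl_φs]

theorem mp_inter_eq {c1 c2 : ℤ} {F T : Finset Edg} :
    (↑((trl (-c1) (-c2)).mp (F ∩ (trl c1 c2).mp T)) : Set Edg) ∩ ↑T =
      ↑((trl (-c1) (-c2)).mp F) ∩ ↑T := by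
  ext ⟨x, y, b⟩
  simp only [Set.mem_inter_iff, Finset.mem_coe, Finset.mem_inter, mem_tr, sub_neg_eq_add,
    add_sub_cancel_right]
  constructor
  · rintro ⟨⟨h1, -⟩, h2⟩; exact ⟨h1, h2⟩
  · rintro ⟨h1, h2⟩; exact ⟨⟨h1, h2⟩, h2⟩

theorem P1_loc {U m : ℕ} {c1 c2 : ℤ} {β : Bool} (F : Finset Edg) :
    P1 U m c1 c2 β F ↔ P1 U m c1 c2 β (F ∩ (trl c1 c2).mp (XV (4 * U) m (16 * U))) := by
  unfold P1
  rw [mp_inter_eq]

theorem P2_loc {U m : ℕ} {c1 c2 : ℤ} {β : Bool} (F : Finset Edg) :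
    P2 U m c1 c2 β F ↔ P2 U m c1 c2 β (F ∩ (trl c1 c2).mp (XH (4 * U) m (16 * U))) := by
  unfold P2
  rw [mp_inter_eq]

theorem cn_mono {I J : Set Vtx} {F G : Set Edg} (h : F ⊆ G) (hF : Cn I J F) : Cn I J G := by
  obtain ⟨u, hu, v, hv, hr⟩ := hF
  exact ⟨u, hu, v, hv, hr.mono h⟩

theorem mp_coe_mono {c1 c2 : ℤ} {F G : Finset Edg} (h : F ⊆ G) :
    (↑((trl c1 c2).mp F) : Set Edg) ⊆ ↑((trl c1 c2).mp G) := by
  exact_mod_cast LSym.mp_mono _ h

theorem P1_incr {U m : ℕ} {c1 c2 : ℤ} {β : Bool} (S : Finset Edg) :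
    IncrE S (P1 U m c1 c2 β) := by
  intro F G h _ hF
  exact cn_mono (Set.insert_subset_insert (Set.inter_subset_inter_left _ (mp_coe_mono h))) hF

theorem P2_decr {U m : ℕ} {c1 c2 : ℤ} {β : Bool} (S : Finset Edg) :
    IncrE S (fun F => ¬ P2 U m c1 c2 β F) := by
  intro F G h _ hF hG
  apply hF
  intro hc
  apply hG
  refine cn_mono ?_ hc
  apply Set.sdiff_subset_sdiff_left
  apply Set.union_subset_union_left
  exact Set.inter_subset_inter_left _ (mp_coe_mono h)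

theorem D3_decr {U : ℕ} {c1 c2 : ℤ} (S : Finset Edg) : IncrE S (fun F => ¬ D3 U c1 c2 F) := by
  intro F G h _ hF hG
  apply hF
  obtain ⟨g1, g2, g3⟩ := hG
  exact ⟨fun k => g1 (k.mono h), fun k => g2 (k.mono h), fun k => g3 (k.mono h)⟩

theorem I4_incr {U n : ℕ} (S : Finset Edg) : IncrE S (I4 U n) := by
  rintro F G h _ ⟨⟨h1, h2⟩, h3, h4⟩
  exact ⟨⟨h1.mono h, h2.mono h⟩, h3.mono h, h4.mono h⟩

/-- The edges of the three closed crossings. -/
noncomputable def DR (U : ℕ) (c1 c2 : ℤ) : Finset Edg :=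
  LRE (8 * U + c1) (16 * U + c1) (-(16 * U) + (c2 - 12 * U)) (16 * U + (c2 - 12 * U)) ∪
  (LRE (-(16 * U) + c1) (-(8 * U) + c1) (-(16 * U) + (c2 - 12 * U)) (16 * U + (c2 - 12 * U)) ∪
  TBE (-(16 * U) + c1) (16 * U + c1) (-(16 * U) + (c2 - 12 * U)) (-(8 * U) + (c2 - 12 * U)))

theorem D3_loc {U : ℕ} {c1 c2 : ℤ} (F : Finset Edg) :
    D3 U c1 c2 F ↔ D3 U c1 c2 (F ∩ DR U c1 c2) := by
  unfold D3
  rw [← LRc_local (show LRE (8 * U + c1) (16 * U + c1) (-(16 * U) + (c2 - 12 * U))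
      (16 * U + (c2 - 12 * U)) ⊆ DR U c1 c2 from Finset.subset_union_left),
    ← LRc_local (show LRE (-(16 * U) + c1) (-(8 * U) + c1) (-(16 * U) + (c2 - 12 * U))
      (16 * U + (c2 - 12 * U)) ⊆ DR U c1 c2 from
        Finset.subset_union_left.trans Finset.subset_union_right),
    ← TBc_local (show TBE (-(16 * U) + c1) (16 * U + c1) (-(16 * U) + (c2 - 12 * U))
      (-(8 * U) + (c2 - 12 * U)) ⊆ DR U c1 c2 from
        Finset.subset_union_right.trans Finset.subset_union_right)]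

/-- The edges of the open circuits and arms. -/
noncomputable def IR (U n : ℕ) : Finset Edg := boxE (6 * U) ∪ (boxE n \ boxE (17 * U))

theorem Circ_loc {R1 R2 : ℤ} {T : Finset Edg} (h1 : LRE (-R2) R2 R1 R2 ⊆ T)
    (h2 : LRE (-R2) R2 (-R2) (-R1) ⊆ T) (h3 : TBE R1 R2 (-R2) R2 ⊆ T)
    (h4 : TBE (-R2) (-R1) (-R2) R2 ⊆ T) (F : Finset Edg) : Circ R1 R2 F ↔ Circ R1 R2 (F ∩ T) := by
  unfold Circ
  rw [← LRc_local h1, ← LRc_local h2, ← TBc_local h3, ← TBc_local h4]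

theorem I4_loc {U n : ℕ} (hU : 1 ≤ U) (hn : 30 * U ≤ n) (F : Finset Edg) :
    I4 U n F ↔ I4 U n (F ∩ IR U n) := by
  unfold I4
  have s1 : boxE (6 * U) ⊆ IR U n := Finset.subset_union_left
  have s2 : boxE n \ boxE (18 * U) ⊆ IR U n :=
    (Finset.sdiff_subset_sdiff (le_refl _) (boxE_mono (by omega))).trans Finset.subset_union_right
  have hc1 := Circ_loc (R1 := ((2 * U : ℕ) : ℤ)) (R2 := ((4 * U : ℕ) : ℤ)) (T := IR U n)
    (by
      refine Finset.Subset.trans ?_ s1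
      rintro ⟨x, y, b⟩ h
      unfold boxE
      cases b
      · rw [mem_LRE_false] at h; rw [mem_RE_false]; push_cast at h ⊢; omega
      · rw [mem_LRE_true] at h; rw [mem_RE_true]; push_cast at h ⊢; omega)
    (by
      refine Finset.Subset.trans ?_ s1
      rintro ⟨x, y, b⟩ h
      unfold boxE
      cases b
      · rw [mem_LRE_false] at h; rw [mem_RE_false]; push_cast at h ⊢; omega
      · rw [mem_LRE_true] at h; rw [mem_RE_true]; push_cast at h ⊢; omega)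
    (by
      refine Finset.Subset.trans ?_ s1
      rintro ⟨x, y, b⟩ h
      unfold boxE
      cases b
      · rw [mem_TBE_false] at h; rw [mem_RE_false]; push_cast at h ⊢; omega
      · rw [mem_TBE_true] at h; rw [mem_RE_true]; push_cast at h ⊢; omega)
    (by
      refine Finset.Subset.trans ?_ s1
      rintro ⟨x, y, b⟩ h
      unfold boxE
      cases b
      · rw [mem_TBE_false] at h; rw [mem_RE_false]; push_cast at h ⊢; omega
      · rw [mem_TBE_true] at h; rw [mem_RE_true]; push_cast at h ⊢; omega) F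
  have s3 : boxE n \ boxE (17 * U) ⊆ IR U n := Finset.subset_union_right
  have hc2 := Circ_loc (R1 := ((18 * U : ℕ) : ℤ)) (R2 := ((24 * U : ℕ) : ℤ)) (T := IR U n)
    (by
      refine Finset.Subset.trans ?_ s3
      rintro ⟨x, y, b⟩ h
      rw [Finset.mem_sdiff]
      unfold boxE
      cases b
      · rw [mem_LRE_false] at h; rw [mem_RE_false, mem_RE_false]; push_cast at h ⊢; omega
      · rw [mem_LRE_true] at h; rw [mem_RE_true, mem_RE_true]; push_cast at h ⊢; omega)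
    (by
      refine Finset.Subset.trans ?_ s3
      rintro ⟨x, y, b⟩ h
      rw [Finset.mem_sdiff]
      unfold boxE
      cases b
      · rw [mem_LRE_false] at h; rw [mem_RE_false, mem_RE_false]; push_cast at h ⊢; omega
      · rw [mem_LRE_true] at h; rw [mem_RE_true, mem_RE_true]; push_cast at h ⊢; omega)
    (by
      refine Finset.Subset.trans ?_ s3
      rintro ⟨x, y, b⟩ h
      rw [Finset.mem_sdiff]
      unfold boxE
      cases b
      · rw [mem_TBE_false] at h; rw [mem_RE_false, mem_RE_false]; push_cast at h ⊢; omega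
      · rw [mem_TBE_true] at h; rw [mem_RE_true, mem_RE_true]; push_cast at h ⊢; omega)
    (by
      refine Finset.Subset.trans ?_ s3
      rintro ⟨x, y, b⟩ h
      rw [Finset.mem_sdiff]
      unfold boxE
      cases b
      · rw [mem_TBE_false] at h; rw [mem_RE_false, mem_RE_false]; push_cast at h ⊢; omega
      · rw [mem_TBE_true] at h; rw [mem_RE_true, mem_RE_true]; push_cast at h ⊢; omega) F
  rw [← hc1, ← hc2, ← Arm_local s1, ← XArm_local s2]

theorem XArm_of_Arm {r n : ℕ} (hr : r ≤ n) {F : Finset Edg} (h : Arm n F) : XArm r n F := by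
  obtain ⟨v, hv, hr'⟩ := h
  obtain ⟨u, hu1, hu2, hu3⟩ := first_entry (a := -(r:ℤ)) (b := r) (c := -(r:ℤ)) (d := r)
    (w := v) (v := (0, 0)) (by
      unfold onB inR at hv
      unfold inR
      omega) hr'.symm (by unfold inR; omega)
  refine ⟨u, v, ⟨hu1, hu2⟩, hv, hu3.symm.mono ?_⟩
  rintro g ⟨⟨g1, g2⟩, g3⟩
  rw [Finset.coe_sdiff]
  exact ⟨g1, g2, g3⟩

theorem sub_box {U m n : ℕ} (hU : 2 * m ≤ U) (hn : 30 * U ≤ n) {c1 c2 : ℤ}
    (h1 : -(m:ℤ) ≤ c1 ∧ c1 ≤ m) (h2 : 12 * (U:ℤ) - m ≤ c2 ∧ c2 ≤ 12 * U + m) :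
    (trl c1 c2).mp (boxE (16 * U)) ⊆ boxE n := by
  rintro ⟨x, y, b⟩ h
  rw [mem_tr] at h
  unfold boxE at h ⊢
  cases b
  · rw [mem_RE_false] at h ⊢; push_cast at h ⊢; omega
  · rw [mem_RE_true] at h ⊢; push_cast at h ⊢; omega

theorem XV_box {U m : ℕ} (hU : 2 * m ≤ U) : XV (4 * U) m (16 * U) ⊆ boxE (16 * U) := by
  rintro ⟨x, y, b⟩ h
  unfold XV boxE at h
  unfold boxE
  rw [Finset.mem_union] at h
  cases b
  · simp only [mem_RE_false] at h ⊢; push_cast at h ⊢; omega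
  · simp only [mem_RE_true] at h ⊢; push_cast at h ⊢; omega

theorem XH_box {U m : ℕ} (hU : 2 * m ≤ U) : XH (4 * U) m (16 * U) ⊆ boxE (16 * U) := by
  rintro ⟨x, y, b⟩ h
  unfold XH boxE at h
  unfold boxE
  rw [Finset.mem_union] at h
  cases b
  · simp only [mem_RE_false] at h ⊢; push_cast at h ⊢; omega
  · simp only [mem_RE_true] at h ⊢; push_cast at h ⊢; omega

theorem DR_box {U m n : ℕ} (hU : 2 * m ≤ U) (hn : 30 * U ≤ n) {c1 c2 : ℤ}
    (h1 : -(m:ℤ) ≤ c1 ∧ c1 ≤ m) (h2 : 12 * (U:ℤ) - m ≤ c2 ∧ c2 ≤ 12 * U + m) :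
    DR U c1 c2 ⊆ boxE n := by
  rintro ⟨x, y, b⟩ h
  unfold DR at h
  rw [Finset.mem_union, Finset.mem_union] at h
  unfold boxE
  cases b
  · simp only [mem_LRE_false, mem_TBE_false] at h
    rw [mem_RE_false]; push_cast; omega
  · simp only [mem_LRE_true, mem_TBE_true] at h
    rw [mem_RE_true]; push_cast; omega

theorem disj1 {U m : ℕ} (hU : 2 * m ≤ U) {c1 c2 : ℤ} :
    Disjoint (DR U c1 c2) ((trl c1 c2).mp (XV (4 * U) m (16 * U))) := by
  rw [Finset.disjoint_left]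
  rintro ⟨x, y, b⟩ h h'
  unfold DR at h
  rw [Finset.mem_union, Finset.mem_union] at h
  rw [mem_tr] at h'
  unfold XV boxE at h'
  rw [Finset.mem_union] at h'
  cases b
  · simp only [mem_LRE_false, mem_TBE_false] at h
    simp only [mem_RE_false] at h'; push_cast at h'; omega
  · simp only [mem_LRE_true, mem_TBE_true] at h
    simp only [mem_RE_true] at h'; push_cast at h'; omega

theorem disj2 {U m n : ℕ} (hU : 2 * m ≤ U) {c1 c2 : ℤ}
    (h1 : -(m:ℤ) ≤ c1 ∧ c1 ≤ m) (h2 : 12 * (U:ℤ) - m ≤ c2 ∧ c2 ≤ 12 * U + m) :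
    Disjoint (IR U n) ((trl c1 c2).mp (XH (4 * U) m (16 * U)) ∪ DR U c1 c2) := by
  rw [Finset.disjoint_left]
  rintro ⟨x, y, b⟩ h h'
  rw [Finset.mem_union] at h'
  unfold IR at h
  rw [Finset.mem_union, Finset.mem_sdiff] at h
  unfold boxE at h
  rcases h' with h' | h'
  · rw [mem_tr] at h'
    unfold XH boxE at h'
    rw [Finset.mem_union] at h'
    cases b
    · simp only [mem_RE_false] at h h'; push_cast at h h'; omega
    · simp only [mem_RE_true] at h h'; push_cast at h h'; omega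
  · unfold DR at h'
    rw [Finset.mem_union, Finset.mem_union] at h'
    cases b
    · simp only [mem_LRE_false, mem_TBE_false] at h'
      simp only [mem_RE_false] at h; push_cast at h; omega
    · simp only [mem_LRE_true, mem_TBE_true] at h'
      simp only [mem_RE_true] at h; push_cast at h; omega

/-- pivotality as an event which does not depend on the edge -/
theorem pr_piv {q : ℝ} {n : ℕ} {e : Edg} (he : e ∈ boxE n) :
    Pr (fun _ => q) (boxE n) (fun F => Arm n (insert e F) ∧ ¬ Arm n (F.erase e)) =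
      Pr (fun _ => q) ((boxE n).erase e) (PivA n e) := by
  rw [Pr_local (S' := (boxE n).erase e) (Finset.erase_subset _ _)]
  · apply Pr_congr
    intro F hF
    have h1 : e ∉ F := fun h => Finset.notMem_erase e _ (hF h)
    rw [Finset.erase_eq_of_notMem h1]
    rfl
  · intro F hF
    have e1 : insert e (F ∩ (boxE n).erase e) = insert e F := by
      ext g
      simp only [Finset.mem_insert, Finset.mem_inter, Finset.mem_erase]
      constructor
      · rintro (h | ⟨h, -⟩)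
        · exact Or.inl h
        · exact Or.inr h
      · rintro (h | h)
        · exact Or.inl h
        · by_cases hg : g = e
          · exact Or.inl hg
          · exact Or.inr ⟨h, hg, hF h⟩
    have e2 : (F ∩ (boxE n).erase e).erase e = F.erase e := by
      ext g
      simp only [Finset.mem_inter, Finset.mem_erase]
      constructor
      · rintro ⟨h1, h2, -⟩; exact ⟨h1, h2⟩
      · rintro ⟨h1, h2⟩; exact ⟨h1, h2, h1, hF h2⟩
    rw [e1, e2]

theorem pr_D3 {q κ : ℝ} {U : ℕ} (hU : 2 ≤ U) (hW : Win q κ (16 * U)) {c1 c2 : ℤ} {S : Finset Edg}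
    (hS : DR U c1 c2 ⊆ S) : κ^3 ≤ PQ q S (D3 U c1 c2) := by
  have h0 : 0 ≤ q := by linarith [hW.lo]
  have h1 : q ≤ 1 := by linarith [hW.hi]
  have ok := okq h0 h1
  have hk := hW.kpos
  have hval : κ ≤ hh (1 - q) (32 * (U:ℤ) + 1) (8 * U - 1) := by
    have h2 := hW.dua (8 * U - 1) (by omega) (by omega)
    refine h2.trans (hh_mono (by linarith) (by linarith) (by omega) ?_ ?_)
    · push_cast [Nat.cast_sub (show 1 ≤ 8 * U by omega)]
      omega
    · push_cast [Nat.cast_sub (show 1 ≤ 8 * U by omega)]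
      omega
  have s1 : LRE (8 * U + c1) (16 * U + c1) (-(16 * U) + (c2 - 12 * U)) (16 * U + (c2 - 12 * U)) ⊆ S :=
    (show _ ⊆ DR U c1 c2 from Finset.subset_union_left).trans hS
  have s2 : LRE (-(16 * U) + c1) (-(8 * U) + c1) (-(16 * U) + (c2 - 12 * U))
      (16 * U + (c2 - 12 * U)) ⊆ S :=
    (show _ ⊆ DR U c1 c2 from Finset.subset_union_left.trans Finset.subset_union_right).trans hS
  have s3 : TBE (-(16 * U) + c1) (16 * U + c1) (-(16 * U) + (c2 - 12 * U))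
      (-(8 * U) + (c2 - 12 * U)) ⊆ S :=
    (show _ ⊆ DR U c1 c2 from Finset.subset_union_right.trans Finset.subset_union_right).trans hS
  have hd := hh_dual (q := q) (w := 8 * (U:ℤ)) (h := 32 * (U:ℤ)) (by omega) (by omega)
  have p1 : κ ≤ PQ q S (fun F => ¬ LRc (8 * U + c1) (16 * U + c1) (-(16 * U) + (c2 - 12 * U))
      (16 * U + (c2 - 12 * U)) F) := by
    unfold PQ
    rw [Pr_not, pr_LRc q s1]
    have e1 : 16 * (U:ℤ) + c1 - (8 * U + c1) = 8 * U := by ring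
    have e2 : 16 * (U:ℤ) + (c2 - 12 * U) - (-(16 * U) + (c2 - 12 * U)) = 32 * U := by ring
    rw [e1, e2, hd]
    linarith
  have p2 : κ ≤ PQ q S (fun F => ¬ LRc (-(16 * U) + c1) (-(8 * U) + c1)
      (-(16 * U) + (c2 - 12 * U)) (16 * U + (c2 - 12 * U)) F) := by
    unfold PQ
    rw [Pr_not, pr_LRc q s2]
    have e1 : -(8 * (U:ℤ)) + c1 - (-(16 * U) + c1) = 8 * U := by ring
    have e2 : 16 * (U:ℤ) + (c2 - 12 * U) - (-(16 * U) + (c2 - 12 * U)) = 32 * U := by ring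
    rw [e1, e2, hd]
    linarith
  have p3 : κ ≤ PQ q S (fun F => ¬ TBc (-(16 * U) + c1) (16 * U + c1)
      (-(16 * U) + (c2 - 12 * U)) (-(8 * U) + (c2 - 12 * U)) F) := by
    unfold PQ
    rw [Pr_not, pr_TBc q s3]
    have e1 : -(8 * (U:ℤ)) + (c2 - 12 * U) - (-(16 * U) + (c2 - 12 * U)) = 8 * U := by ring
    have e2 : 16 * (U:ℤ) + c1 - (-(16 * U) + c1) = 32 * U := by ring
    rw [e1, e2, hd]
    linarith
  have q1 := HC_decr ok (S := S)
    (A := fun F => ¬ LRc (-(16 * U) + c1) (-(8 * U) + c1)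
      (-(16 * U) + (c2 - 12 * U)) (16 * U + (c2 - 12 * U)) F)
    (B := fun F => ¬ TBc (-(16 * U) + c1) (16 * U + c1)
      (-(16 * U) + (c2 - 12 * U)) (-(8 * U) + (c2 - 12 * U)) F)
    (fun F G h _ hF hG => hF (fun hc => hG (hc.mono h)))
    (fun F G h _ hF hG => hF (fun hc => hG (hc.mono h)))
  have q2 := HC_decr ok (S := S)
    (A := fun F => ¬ LRc (8 * U + c1) (16 * U + c1) (-(16 * U) + (c2 - 12 * U))
      (16 * U + (c2 - 12 * U)) F)
    (B := fun F => ¬ LRc (-(16 * U) + c1) (-(8 * U) + c1)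
      (-(16 * U) + (c2 - 12 * U)) (16 * U + (c2 - 12 * U)) F ∧
      ¬ TBc (-(16 * U) + c1) (16 * U + c1)
      (-(16 * U) + (c2 - 12 * U)) (-(8 * U) + (c2 - 12 * U)) F)
    (fun F G h _ hF hG => hF (fun hc => hG (hc.mono h)))
    (fun F G h _ hF hG => hF ⟨fun hc => hG.1 (hc.mono h), fun hc => hG.2 (hc.mono h)⟩)
  have q3 : κ * κ ≤ PQ q S (fun F => ¬ LRc (-(16 * U) + c1) (-(8 * U) + c1)
      (-(16 * U) + (c2 - 12 * U)) (16 * U + (c2 - 12 * U)) F ∧
      ¬ TBc (-(16 * U) + c1) (16 * U + c1)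
      (-(16 * U) + (c2 - 12 * U)) (-(8 * U) + (c2 - 12 * U)) F) :=
    (mul_le_mul p2 p3 hk.le (hk.le.trans p2)).trans q1
  calc κ^3 = κ * (κ * κ) := by ring
    _ ≤ _ := mul_le_mul p1 q3 (by positivity) (hk.le.trans p1)
    _ ≤ _ := q2

theorem pr_I4 {q κ : ℝ} {U n : ℕ} (hU : 2 ≤ U) (hW : Win q κ (16 * U)) (hn : 30 * U ≤ n) :
    κ^8 * arm q n ≤ PQ q (boxE n) (I4 U n) := by
  have h0 : 0 ≤ q := by linarith [hW.lo]
  have h1 : q ≤ 1 := by linarith [hW.hi]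
  have ok := okq h0 h1
  have hk := hW.kpos
  have b1 : ∀ R : ℕ, R ≤ n → RE (-((R:ℕ):ℤ)) ((R:ℕ):ℤ) (-((R:ℕ):ℤ)) ((R:ℕ):ℤ) ⊆ boxE n :=
    fun R hR => boxE_mono hR
  have p1 : κ^4 ≤ PQ q (boxE n) (Circ ((2 * U : ℕ) : ℤ) ((4 * U : ℕ) : ℤ)) := by
    refine le_trans ?_ (pr_Circ h0 h1 (by positivity) (by push_cast; omega) (b1 (4 * U) (by omega)))
    apply pow_le_pow_left₀ hk.le
    have h2 := hW.pri (2 * U) (by omega) (by omega)
    refine h2.trans (hh_mono h0 h1 (by push_cast; omega) ?_ ?_)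
    · push_cast; omega
    · push_cast; omega
  have p2 : κ^4 ≤ PQ q (boxE n) (Circ ((18 * U : ℕ) : ℤ) ((24 * U : ℕ) : ℤ)) := by
    refine le_trans ?_ (pr_Circ h0 h1 (by positivity) (by push_cast; omega) (b1 (24 * U) (by omega)))
    apply pow_le_pow_left₀ hk.le
    have h2 := hW.pri (6 * U) (by omega) (by omega)
    refine h2.trans (hh_mono h0 h1 (by push_cast; omega) ?_ ?_)
    · push_cast; omega
    · push_cast; omega
  have p3 : arm q n ≤ PQ q (boxE n) (fun F => Arm (6 * U) F ∧ XArm (18 * U) n F) := by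
    apply Pr_mono ok
    intro F _ hF
    exact ⟨Arm_anti (by omega) hF, XArm_of_Arm (by omega) hF⟩
  have q1 : PQ q (boxE n) (Circ ((2 * U : ℕ) : ℤ) ((4 * U : ℕ) : ℤ)) *
      PQ q (boxE n) (Circ ((18 * U : ℕ) : ℤ) ((24 * U : ℕ) : ℤ)) ≤
      PQ q (boxE n) (fun F => Circ ((2 * U : ℕ) : ℤ) ((4 * U : ℕ) : ℤ) F ∧
        Circ ((18 * U : ℕ) : ℤ) ((24 * U : ℕ) : ℤ) F) :=
    Pr_harris ok (fun F G h _ hF => hF.mono h) (fun F G h _ hF => hF.mono h)
  have q2 : PQ q (boxE n) (fun F => Circ ((2 * U : ℕ) : ℤ) ((4 * U : ℕ) : ℤ) F ∧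
        Circ ((18 * U : ℕ) : ℤ) ((24 * U : ℕ) : ℤ) F) *
      PQ q (boxE n) (fun F => Arm (6 * U) F ∧ XArm (18 * U) n F) ≤ PQ q (boxE n) (I4 U n) :=
    Pr_harris ok (fun F G h _ hF => ⟨hF.1.mono h, hF.2.mono h⟩)
      (fun F G h _ hF => ⟨hF.1.mono h, hF.2.mono h⟩)
  have ha := arm_nonneg h0 h1 n
  calc κ^8 * arm q n = (κ^4 * κ^4) * arm q n := by ring
    _ ≤ _ := mul_le_mul (mul_le_mul p1 p2 (by positivity) ((by positivity : (0:ℝ) ≤ κ^4).trans p1))
        p3 ha (mul_nonneg ((by positivity : (0:ℝ) ≤ κ^4).trans p1)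
          ((by positivity : (0:ℝ) ≤ κ^4).trans p2))
    _ ≤ _ := mul_le_mul_of_nonneg_right q1 (ha.trans p3)
    _ ≤ _ := q2

theorem piv_low {q κ : ℝ} {U m n : ℕ} (hm : 1 ≤ m) (hU : 2 * m ≤ U) (hW : Win q κ (16 * U))
    (hn : 30 * U ≤ n) {c1 c2 : ℤ} (h1 : -(m:ℤ) ≤ c1 ∧ c1 ≤ m)
    (h2 : 12 * (U:ℤ) - m ≤ c2 ∧ c2 ≤ 12 * U + m) (β : Bool) :
    κ^11 * (PQ q (boxE (16 * U)) (fun F => Plus (4 * U) m (16 * U) (e0 β) ↑F) * arm q n) ≤
      Pr (fun _ => q) ((boxE n).erase (c1, c2, β)) (PivA n (c1, c2, β)) := by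
  have h0 : 0 ≤ q := by linarith [hW.lo]
  have hq1 : q ≤ 1 := by linarith [hW.hi]
  have ok := okq h0 hq1
  have hk := hW.kpos
  have hebox : ((c1, c2, β) : Edg) ∈ boxE n := by
    unfold boxE
    cases β
    · rw [mem_RE_false]; push_cast; omega
    · rw [mem_RE_true]; push_cast; omega
  have hsub := sub_box hU hn h1 h2
  have hXVs : (trl c1 c2).mp (XV (4 * U) m (16 * U)) ⊆ boxE n :=
    (LSym.mp_mono _ (XV_box hU)).trans hsub
  have hXHs : (trl c1 c2).mp (XH (4 * U) m (16 * U)) ⊆ boxE n :=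
    (LSym.mp_mono _ (XH_box hU)).trans hsub
  have hDR := DR_box hU hn h1 h2
  -- the plus event
  have e1 : PQ q (boxE n) (fun F => P2 U m c1 c2 β F ∧ P1 U m c1 c2 β F) =
      PQ q (boxE (16 * U)) (fun F => Plus (4 * U) m (16 * U) (e0 β) ↑F) := by
    have g1 : PQ q (boxE n) (fun F => P2 U m c1 c2 β F ∧ P1 U m c1 c2 β F) =
        PQ q ((trl c1 c2).mp (boxE (16 * U))) (fun F => P2 U m c1 c2 β F ∧ P1 U m c1 c2 β F) := by
      apply Pr_local hsub
      intro F _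
      rw [← loc_inter P1_loc (LSym.mp_mono _ (XV_box hU)) F,
        ← loc_inter P2_loc (LSym.mp_mono _ (XH_box hU)) F]
    have g2 : PQ q ((trl c1 c2).mp (boxE (16 * U)))
        (fun F => P2 U m c1 c2 β F ∧ P1 U m c1 c2 β F) = PQ q (boxE (16 * U))
        (fun F => P2 U m c1 c2 β ((trl c1 c2).mp F) ∧ P1 U m c1 c2 β ((trl c1 c2).mp F)) :=
      LSym.pr _ _ _ _
    rw [g1, g2]
    apply Pr_congr
    intro F _
    unfold P1 P2 Plus
    rw [trl_trl]
    exact and_comm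
  have st1 := harris_cond' ok (S := boxE n) hXVs (X := P2 U m c1 c2 β) (Y := P1 U m c1 c2 β)
    (Z := D3 U c1 c2) (P2_decr _) (D3_decr _) (fun F _ => P1_loc F)
    (fun F _ => loc_sdiff D3_loc (disj1 hU) F)
  have st2 := harris_cond ok (S := boxE n) (Finset.union_subset hXHs hDR)
    (X := P1 U m c1 c2 β) (Y := fun F => P2 U m c1 c2 β F ∧ D3 U c1 c2 F)
    (Z := I4 U n) (P1_incr _) (I4_incr _)
    (fun F _ => by
      rw [← loc_inter P2_loc Finset.subset_union_left F,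
        ← loc_inter D3_loc Finset.subset_union_right F])
    (fun F _ => loc_sdiff (I4_loc (by omega) hn) (disj2 hU h1 h2) F)
  have e2 : Pr (fun _ => q) (boxE n) (fun F => (P2 U m c1 c2 β F ∧ P1 U m c1 c2 β F) ∧
      D3 U c1 c2 F) = Pr (fun _ => q) (boxE n) (fun F => P1 U m c1 c2 β F ∧
      (P2 U m c1 c2 β F ∧ D3 U c1 c2 F)) := by
    apply Pr_congr
    intro F _
    tauto
  rw [e2] at st1
  have p3 := pr_D3 (by omega) hW hDR
  have p4 := pr_I4 (by omega) hW hn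
  obtain ⟨P, hP⟩ : ∃ P : ℝ, P = PQ q (boxE (16 * U))
    (fun F => Plus (4 * U) m (16 * U) (e0 β) ↑F) := ⟨_, rfl⟩
  rw [← hP] at e1 ⊢
  have hP0 : 0 ≤ P := by rw [hP]; exact Pr_nonneg ok _ _
  have ha := arm_nonneg h0 hq1 n
  have e1' : Pr (fun _ => q) (boxE n) (fun F => P2 U m c1 c2 β F ∧ P1 U m c1 c2 β F) = P := e1
  rw [e1'] at st1
  have q1 : P * κ^3 ≤ Pr (fun _ => q) (boxE n) (fun F => P1 U m c1 c2 β F ∧
      (P2 U m c1 c2 β F ∧ D3 U c1 c2 F)) :=
    (mul_le_mul_of_nonneg_left p3 hP0).trans st1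
  have q2 : (P * κ^3) * (κ^8 * arm q n) ≤ _ :=
    (mul_le_mul q1 p4 (by positivity) (Pr_nonneg ok _ _)).trans st2
  rw [← pr_piv hebox]
  have e3 : κ^11 * (P * arm q n) = (P * κ^3) * (κ^8 * arm q n) := by ring
  rw [e3]
  refine q2.trans (Pr_mono ok ?_)
  rintro F _ ⟨⟨f1, f2, f3⟩, f4⟩
  exact ⟨open_part hm hU hn h1 h2 f1 f4, closed_part hm hU hn h1 h2 f2 f3⟩

/-- **Lower bound for the derivative of the one-arm probability.** -/
theorem dArm_low {q κ P : ℝ} {U m n : ℕ} (hm : 1 ≤ m) (hU : 2 * m ≤ U) (hW : Win q κ (16 * U))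
    (hn : 30 * U ≤ n) {β : Bool}
    (hP : P ≤ PQ q (boxE (16 * U)) (fun F => Plus (4 * U) m (16 * U) (e0 β) ↑F)) :
    (m:ℝ)^2 * (κ^11 * (P * arm q n)) ≤ H31K.dArm q n := by
  have h0 : 0 ≤ q := by linarith [hW.lo]
  have hq1 : q ≤ 1 := by linarith [hW.hi]
  have ok := okq h0 hq1
  have hk := hW.kpos
  have ha := arm_nonneg h0 hq1 n
  obtain ⟨T, hT⟩ : ∃ T : Finset Edg, T =
    (Finset.Icc (-(m:ℤ)) m ×ˢ Finset.Icc (12 * (U:ℤ) - m) (12 * U + m)).image
      (fun c => ((c.1, c.2, β) : Edg)) := ⟨_, rfl⟩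
  have hTc : (m:ℝ)^2 ≤ T.card := by
    rw [hT, Finset.card_image_of_injective _ (by
      rintro ⟨a, b⟩ ⟨c, d⟩ h
      simp only [Prod.mk.injEq] at h
      exact Prod.ext h.1 h.2.1), Finset.card_product, Int.card_Icc, Int.card_Icc]
    have e1 : ((m:ℤ) + 1 - -(m:ℤ)).toNat = 2 * m + 1 := by omega
    have e2 : (12 * (U:ℤ) + m + 1 - (12 * U - m)).toNat = 2 * m + 1 := by omega
    rw [e1, e2]
    push_cast
    have : (0:ℝ) ≤ m := Nat.cast_nonneg _
    nlinarith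
  have hmem : ∀ e ∈ T, ∃ c1 c2 : ℤ, e = (c1, c2, β) ∧ (-(m:ℤ) ≤ c1 ∧ c1 ≤ m) ∧
      (12 * (U:ℤ) - m ≤ c2 ∧ c2 ≤ 12 * U + m) := by
    intro e he
    rw [hT, Finset.mem_image] at he
    obtain ⟨⟨c1, c2⟩, hc, rfl⟩ := he
    rw [Finset.mem_product, Finset.mem_Icc, Finset.mem_Icc] at hc
    exact ⟨c1, c2, rfl, hc.1, hc.2⟩
  have hTsub : T ⊆ boxE n := by
    intro e he
    obtain ⟨c1, c2, rfl, h1, h2⟩ := hmem e he
    unfold boxE
    cases β
    · rw [mem_RE_false]; push_cast; omega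
    · rw [mem_RE_true]; push_cast; omega
  have hsum : ∑ e ∈ T, Pr (fun _ => q) ((boxE n).erase e) (PivA n e) ≤ H31K.dArm q n := by
    unfold H31K.dArm
    exact Finset.sum_le_sum_of_subset_of_nonneg hTsub (fun e _ _ => Pr_nonneg ok _ _)
  refine le_trans ?_ hsum
  have hterm : ∀ e ∈ T, κ^11 * (P * arm q n) ≤
      Pr (fun _ => q) ((boxE n).erase e) (PivA n e) := by
    intro e he
    obtain ⟨c1, c2, rfl, h1, h2⟩ := hmem e he
    refine le_trans ?_ (piv_low hm hU hW hn h1 h2 β)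
    apply mul_le_mul_of_nonneg_left _ (by positivity)
    exact mul_le_mul_of_nonneg_right hP ha
  have hcs := Finset.card_nsmul_le_sum T _ _ hterm
  rw [nsmul_eq_mul] at hcs
  rcases le_or_gt 0 P with hP0 | hP0
  · refine le_trans (mul_le_mul_of_nonneg_right hTc (by positivity)) hcs
  · refine le_trans ?_ (Finset.sum_nonneg (fun e _ => Pr_nonneg ok _ _))
    have : P * arm q n ≤ 0 := mul_nonpos_of_nonpos_of_nonneg hP0.le ha
    have h3 : κ^11 * (P * arm q n) ≤ 0 := mul_nonpos_of_nonneg_of_nonpos (by positivity) this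
    exact mul_nonpos_of_nonneg_of_nonpos (by positivity) h3

end Pool.Agent.W2helper77.OP
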