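import Pool.Agent.W2helper77.OP.UpFin
import Pool.Agent.W2helper77.OP.LowProb
import Pool.Agent.W2helper77.OP.PlusN

/-!
The percolation probability `θ` above the critical point: `θ(p') - θ(p)` is of the order of
`(p' - 1/2) ^ (5/36) - (p - 1/2) ^ (5/36)`.
-/

set_option autoImplicit false
set_option maxHeartbeats 1000000

namespace Pool.Agent.W2helper77.OP

open H974 H31K Finset Filter Topology Pool.Agent.W2helper77.TP

theorem mvt (M : ℕ) {a b : ℝ} (hab : a < b) :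
    ∃ ξ : ℝ, a < ξ ∧ ξ < b ∧ arm b M - arm a M = dArm ξ M * (b - a) := by
  obtain ⟨ξ, hξ, h⟩ := exists_hasDerivAt_eq_slope (fun q => arm q M) (fun q => dArm q M) hab
    (fun q _ => (stab_deriv q M).continuousAt.continuousWithinAt)
    (fun q _ => stab_deriv q M)
  refine ⟨ξ, hξ.1, hξ.2, ?_⟩
  have h0 : 0 < b - a := by linarith
  rw [eq_div_iff h0.ne'] at h
  exact h.symm

/-- The scales for an interval `[1/2 + s, 1/2 + t]` with `t ≤ 2 s`. -/
theorem scales : ∃ (κ c0 C0 B κP cP A : ℝ) (L M0 K : ℕ) (δ : ℝ), 0 < κ ∧ 0 < c0 ∧ 0 < C0 ∧ 0 < B ∧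
    0 < κP ∧ 0 < cP ∧ 0 < A ∧ 2 ≤ L ∧ 64 ≤ M0 ∧ 1 ≤ K ∧ 0 < δ ∧ δ ≤ 1/4 ∧
    ∀ s t : ℝ, 0 < s → s ≤ t → t ≤ 2 * s → t ≤ δ → ∃ r N : ℕ, 1 ≤ r ∧
      (∀ q : ℝ, 1/2 + s ≤ q → q ≤ 1/2 + t → Sc q κ c0 C0 B K (16 * L * (M0 * r)) N ∧
        H12S.Win q κP (16 * L * (M0 * r)) ∧
        ∃ β : Bool, cP * ((M0 * r : ℕ) : ℝ) ^ (-(5/4) : ℝ) ≤
          H12S.PQ q (boxE (16 * L * (M0 * r))) (fun F => H12S.Plus (4 * L * (M0 * r)) (M0 * r)
            (16 * L * (M0 * r)) (H12S.e0 β) ↑F)) ∧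
      ((16 * L * (M0 * r) : ℕ) : ℝ) ≤ A * t^(-(4/3) : ℝ) ∧
      t^(-(4/3) : ℝ) ≤ A * ((16 * L * (M0 * r) : ℕ) : ℝ) := by
  obtain ⟨κ, b, c0, C0, hκ, hκ1, hb, hc0, hC0, hwin⟩ := winA
  obtain ⟨L, M0, κP, bP, cP, hL, hM0, hκP, hbP, hcP, hplus⟩ := plusN
  obtain ⟨κS, bS, cS, CS, hκS, hbS, hcS, hCS, hS⟩ := Pool.Agent.W424.NC.nearS
  obtain ⟨E, hE1, hfar⟩ := Pool.Agent.W424.NC.farS
  obtain ⟨bm, hbm⟩ : ∃ bm : ℝ, bm = min b (min bP bS) := ⟨_, rfl⟩
  have hbm0 : 0 < bm := by rw [hbm]; exact lt_min hb (lt_min hbP hbS)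
  have hbm1 : bm ≤ b := by rw [hbm]; exact min_le_left _ _
  have hbm2 : bm ≤ bP := by rw [hbm]; exact (min_le_right _ _).trans (min_le_left _ _)
  have hbm3 : bm ≤ bS := by rw [hbm]; exact (min_le_right _ _).trans (min_le_right _ _)
  obtain ⟨D, hD⟩ : ∃ D : ℕ, D = 16 * L * M0 := ⟨_, rfl⟩
  have hD64 : 64 ≤ D := by
    rw [hD]
    exact hM0.trans (Nat.le_mul_of_pos_left _ (by omega))
  have hD0 : (0:ℝ) < D := by exact_mod_cast (by omega : 0 < D)
  have hD1 : (1:ℝ) ≤ D := by exact_mod_cast (by omega : 1 ≤ D)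
  obtain ⟨β, hβ⟩ : ∃ β : ℝ, β = bm * (D:ℝ)^(-(3/4) : ℝ) := ⟨_, rfl⟩
  have hβ0 : 0 < β := by rw [hβ]; positivity
  obtain ⟨B4, hB4⟩ : ∃ B4 : ℝ, B4 = β^(4/3 : ℝ) := ⟨_, rfl⟩
  have hB40 : 0 < B4 := by rw [hB4]; positivity
  refine ⟨κ, c0, C0, CS, κP, cP, D * B4 + 2 / B4, L, M0, ⌈8 * E / B4⌉₊ + 2, min (β/8) (1/4), hκ,
    hc0, hC0, hCS, hκP, hcP, by positivity, hL, hM0, by omega, lt_min (by positivity) (by norm_num),
    min_le_right _ _, ?_⟩
  intro s t hs hst hts htδ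
  have ht0 : 0 < t := by linarith
  obtain ⟨r, hr8, htr, hru, hrl⟩ := scale hβ0 ht0 (by
    have := htδ.trans (min_le_left _ _)
    linarith)
  rw [← hB4] at hru hrl
  have hr0 : (0:ℝ) < r := by exact_mod_cast (by omega : 0 < r)
  obtain ⟨n, hn⟩ : ∃ n : ℕ, n = 16 * L * (M0 * r) := ⟨_, rfl⟩
  have hnD : n = D * r := by rw [hn, hD]; ring
  have hnr : (n:ℝ) = D * r := by rw [hnD]; push_cast; ring
  have hrn : r ≤ n := by rw [hnD]; exact Nat.le_mul_of_pos_left _ (by omega)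
  have hn64 : 64 ≤ n := by
    rw [hnD]
    exact hD64.trans (Nat.le_mul_of_pos_right _ (by omega))
  have hT0 : 0 < t^(-(4/3) : ℝ) := by positivity
  have hwt : t ≤ bm * (n:ℝ)^(-(3/4) : ℝ) := by
    rw [hnr, Real.mul_rpow hD0.le hr0.le]
    rw [hβ] at htr
    linarith
  have hnp : 0 < (n:ℝ)^(-(3/4) : ℝ) := by
    have : (0:ℝ) < n := by exact_mod_cast (by omega : 0 < n)
    positivity
  refine ⟨r, ⌈E * s^(-(4/3) : ℝ)⌉₊ + n, by omega, ?_, ?_, ?_⟩
  · intro q hq1 hq2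
    rw [← hn]
    have habs : |q - 1/2| ≤ t := by rw [abs_of_nonneg (by linarith)]; linarith
    have hq1' : q ≤ 1 := by
      have := htδ.trans (min_le_right _ _)
      linarith
    have w1 := hwin n (by omega) q (habs.trans (hwt.trans
      (mul_le_mul_of_nonneg_right hbm1 hnp.le)))
    have w2 := hplus r (by omega) q (by
      rw [← hn]
      exact habs.trans (hwt.trans (mul_le_mul_of_nonneg_right hbm2 hnp.le)))
    have w3 := hS n (by omega) q (habs.trans (hwt.trans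
      (mul_le_mul_of_nonneg_right hbm3 hnp.le)))
    rw [← hn] at w2
    refine ⟨⟨w1, hκ1, hCS, by omega, hn64, fun m h1 h2 => (w3.2 m h1 h2).2, Nat.le_add_left _ _,
      ?_, ?_⟩, w2.1, w2.2⟩
    · -- `N ≤ K n`
      have g1 : s^(-(4/3) : ℝ) ≤ (t/2)^(-(4/3) : ℝ) :=
        Real.rpow_le_rpow_of_nonpos (by positivity) (by linarith) (by norm_num)
      have g2 : (t/2)^(-(4/3) : ℝ) ≤ 4 * t^(-(4/3) : ℝ) := by
        rw [Real.div_rpow ht0.le (by norm_num), Real.rpow_neg (by norm_num : (0:ℝ) ≤ 2),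
          div_inv_eq_mul, mul_comm]
        apply mul_le_mul_of_nonneg_right _ hT0.le
        calc (2:ℝ)^(4/3 : ℝ) ≤ (2:ℝ)^(2 : ℝ) :=
              Real.rpow_le_rpow_of_exponent_le (by norm_num) (by norm_num)
          _ = 4 := by norm_num
      have g3 : t^(-(4/3) : ℝ) ≤ 2 * r / B4 := by
        rw [le_div_iff₀ hB40, mul_comm]
        exact hrl
      have g4 : E * s^(-(4/3) : ℝ) ≤ 8 * E / B4 * n := by
        have e1 : E * s^(-(4/3) : ℝ) ≤ E * (4 * (2 * r / B4)) := by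
          apply mul_le_mul_of_nonneg_left _ (by linarith)
          exact (g1.trans g2).trans (mul_le_mul_of_nonneg_left g3 (by norm_num))
        have e2 : E * (4 * (2 * r / B4)) = 8 * E / B4 * r := by ring
        rw [e2] at e1
        refine e1.trans (mul_le_mul_of_nonneg_left (by exact_mod_cast hrn) (by positivity))
      have g5 := Nat.ceil_lt_add_one (show 0 ≤ E * s^(-(4/3) : ℝ) by positivity)
      have g6 := Nat.le_ceil (8 * E / B4)
      have g7 : (⌈E * s^(-(4/3) : ℝ)⌉₊ + n : ℕ) ≤ (⌈8 * E / B4⌉₊ + 2) * n := by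
        have g8 : ((⌈E * s^(-(4/3) : ℝ)⌉₊ + n : ℕ) : ℝ) ≤ (((⌈8 * E / B4⌉₊ + 2) * n : ℕ) : ℝ) := by
          push_cast
          have hn1 : (1:ℝ) ≤ n := by exact_mod_cast (by omega : 1 ≤ n)
          have g9 : 8 * E / B4 * n ≤ (⌈8 * E / B4⌉₊ : ℝ) * n :=
            mul_le_mul_of_nonneg_right g6 (by linarith)
          linarith
        exact_mod_cast g8
      exact g7
    · apply hfar q (by linarith) hq1'
      have g1 : (q - 1/2)^(-(4/3) : ℝ) ≤ s^(-(4/3) : ℝ) :=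
        Real.rpow_le_rpow_of_nonpos hs (by linarith) (by norm_num)
      have g2 := Nat.le_ceil (E * s^(-(4/3) : ℝ))
      have g3 : E * (q - 1/2)^(-(4/3) : ℝ) ≤ E * s^(-(4/3) : ℝ) :=
        mul_le_mul_of_nonneg_left g1 (by linarith)
      push_cast
      have : (0:ℝ) ≤ n := Nat.cast_nonneg _
      linarith
  · rw [← hn, hnr]
    calc (D:ℝ) * r ≤ D * (B4 * t^(-(4/3) : ℝ)) := mul_le_mul_of_nonneg_left hru hD0.le
      _ = D * B4 * t^(-(4/3) : ℝ) := by ring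
      _ ≤ _ := by
          apply mul_le_mul_of_nonneg_right _ hT0.le
          have : 0 < 2 / B4 := by positivity
          linarith
  · rw [← hn, hnr]
    have g3 : t^(-(4/3) : ℝ) ≤ 2 / B4 * r := by
      rw [div_mul_eq_mul_div, le_div_iff₀ hB40, mul_comm]
      exact hrl
    refine g3.trans ?_
    have g4 : 2 / B4 * (r:ℝ) ≤ 2 / B4 * (D * r) := by
      apply mul_le_mul_of_nonneg_left _ (by positivity)
      nlinarith
    refine g4.trans ?_
    apply mul_le_mul_of_nonneg_right _ (by positivity)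
    have : 0 < D * B4 := by positivity
    linarith

theorem arm_tendsto (p : unitInterval) {M : ℕ → ℕ} (hM : ∀ j, j ≤ M j) :
    Tendsto (fun j => arm p (M j)) atTop (𝓝 (theta p)) := by
  have h1 : Tendsto (fun m : ℕ => arm p m) atTop (𝓝 (theta p)) := by
    apply tendsto_atTop_isGLB
    · intro a b hab
      exact arm_anti p.2.1 p.2.2 hab
    · constructor
      · rintro x ⟨m, rfl⟩
        exact theta_le_arm p m
      · intro x hx
        exact le_theta p (fun m => hx ⟨m, rfl⟩)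
  exact h1.comp (tendsto_atTop_mono hM tendsto_id)

/-- The increments of `θ`, for `t ≤ 2 s`. -/
theorem main_loc : ∃ δ c C : ℝ, 0 < δ ∧ δ ≤ 1/4 ∧ 0 < c ∧ 0 < C ∧
    ∀ (p p' : unitInterval) (s t : ℝ), (p:ℝ) = 1/2 + s → (p':ℝ) = 1/2 + t → 0 < s → s ≤ t →
      t ≤ 2 * s → t ≤ δ →
      c * ((t - s) * t^(-(31/36) : ℝ)) ≤ theta p' - theta p ∧
      theta p' - theta p ≤ C * ((t - s) * t^(-(31/36) : ℝ)) ∧
      theta p' ≤ C * t^(5/36 : ℝ) := by
  obtain ⟨κ, c0, C0, B, κP, cP, A, L, M0, K, δ, hκ, hc0, hC0, hB, hκP, hcP, hA, hL, hM0, hK, hδ,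
    hδ4, hsc⟩ := scales
  obtain ⟨Cd, hCd, hup⟩ := dArm_up hκ hc0 hC0 hB hK
  have hcA := cA_pos hκ hc0 hK
  have hL0 : (0:ℝ) < 16 * L := by
    have : (0:ℝ) < L := by exact_mod_cast (by omega : 0 < L)
    positivity
  obtain ⟨cl, hcl⟩ : ∃ cl : ℝ, cl = κP^11 * cP * (16 * L : ℝ)^(-(3/4) : ℝ) * cA κ c0 K := ⟨_, rfl⟩
  have hcl0 : 0 < cl := by rw [hcl]; positivity
  refine ⟨δ, cl * A^(-(31/48) : ℝ), Cd * C0 * A^(31/48 : ℝ) + C0 * A^(5/48 : ℝ), hδ, hδ4,
    by positivity, by positivity, ?_⟩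
  intro p p' s t hp hp' hs hst hts htδ
  have ht0 : 0 < t := by linarith
  obtain ⟨r, N, hr, hq, hnu, hnl⟩ := hsc s t hs hst hts htδ
  obtain ⟨n, hn⟩ : ∃ n : ℕ, n = 16 * L * (M0 * r) := ⟨_, rfl⟩
  rw [← hn] at hnu hnl
  have hSp := (hq p' (by linarith) (by linarith)).1
  rw [← hn] at hSp
  have hn64 := hSp.n64
  have hN1 := hSp.N1
  have hn0 : (0:ℝ) < n := by exact_mod_cast (by omega : 0 < n)
  have ht43 : 0 < t^(-(4/3) : ℝ) := by positivity
  -- powers
  have e31 : (n:ℝ)^(31/48 : ℝ) ≤ A^(31/48 : ℝ) * t^(-(31/36) : ℝ) := by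
    calc (n:ℝ)^(31/48 : ℝ) ≤ (A * t^(-(4/3) : ℝ))^(31/48 : ℝ) :=
          Real.rpow_le_rpow hn0.le hnu (by norm_num)
      _ = _ := by
          rw [Real.mul_rpow hA.le ht43.le, ← Real.rpow_mul ht0.le]
          norm_num
  have e31' : A^(-(31/48) : ℝ) * t^(-(31/36) : ℝ) ≤ (n:ℝ)^(31/48 : ℝ) := by
    have g1 : t^(-(31/36) : ℝ) ≤ A^(31/48 : ℝ) * (n:ℝ)^(31/48 : ℝ) := by
      calc t^(-(31/36) : ℝ) = (t^(-(4/3) : ℝ))^(31/48 : ℝ) := by
            rw [← Real.rpow_mul ht0.le]; norm_num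
        _ ≤ (A * n)^(31/48 : ℝ) := Real.rpow_le_rpow ht43.le hnl (by norm_num)
        _ = _ := Real.mul_rpow hA.le hn0.le
    rw [Real.rpow_neg hA.le, inv_mul_le_iff₀ (by positivity)]
    exact g1
  have e5 : (n:ℝ)^(-(5/48) : ℝ) ≤ A^(5/48 : ℝ) * t^(5/36 : ℝ) := by
    have g1 : t^(-(4/3) : ℝ) / A ≤ n := by
      rw [div_le_iff₀ hA, mul_comm]; exact hnl
    calc (n:ℝ)^(-(5/48) : ℝ) ≤ (t^(-(4/3) : ℝ) / A)^(-(5/48) : ℝ) :=
          Real.rpow_le_rpow_of_nonpos (by positivity) g1 (by norm_num)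
      _ = _ := by
          rw [Real.div_rpow ht43.le hA.le, ← Real.rpow_mul ht0.le, Real.rpow_neg hA.le,
            div_inv_eq_mul, mul_comm]
          norm_num
  have hts0 : 0 ≤ t - s := by linarith
  refine ⟨?_, ?_, ?_⟩
  · -- lower bound
    rcases eq_or_lt_of_le hst with heq | hlt
    · have : p = p' := Subtype.ext (by rw [hp, hp', heq])
      rw [this, ← heq]; simp
    · obtain ⟨U, hU⟩ : ∃ U : ℕ, U = L * (M0 * r) := ⟨_, rfl⟩
      obtain ⟨m, hm⟩ : ∃ m : ℕ, m = M0 * r := ⟨_, rfl⟩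
      have hm1 : 1 ≤ m := by rw [hm]; exact Nat.one_le_iff_ne_zero.2 (by
        have : 0 < M0 * r := Nat.mul_pos (by omega) (by omega)
        omega)
      have hUm : 2 * m ≤ U := by rw [hU, hm]; exact Nat.mul_le_mul_right _ hL
      have hm0 : (0:ℝ) < m := by exact_mod_cast hm1
      have hbig : ∀ M : ℕ, 30 * U ≤ M →
          theta p + cl * A^(-(31/48) : ℝ) * ((t - s) * t^(-(31/36) : ℝ)) ≤ arm p' M := by
        intro M hM
        obtain ⟨ξ, hξ1, hξ2, hξ⟩ := mvt M (a := (p:ℝ)) (b := (p':ℝ)) (by linarith)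
        obtain ⟨hS, hW, β, hβ⟩ := hq ξ (by linarith) (by linarith)
        have e16 : 16 * L * (M0 * r) = 16 * U := by rw [hU]; ring
        have e4 : 4 * L * (M0 * r) = 4 * U := by rw [hU]; ring
        rw [e16] at hW
        rw [e16, e4, ← hm] at hβ
        have g1 := dArm_low hm1 hUm hW hM hβ
        rw [← hn] at hS
        have g2 := arm_all hS M
        have g3 : cl * (n:ℝ)^(31/48 : ℝ) ≤ dArm ξ M := by
          refine le_trans ?_ g1
          have k1 : (m:ℝ)^2 * (m:ℝ)^(-(5/4) : ℝ) = (16 * L : ℝ)^(-(3/4) : ℝ) * (n:ℝ)^(3/4 : ℝ) := by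
            have k2 : (n:ℝ) = 16 * L * m := by rw [hn, hm]; push_cast; ring
            rw [k2, Real.mul_rpow hL0.le hm0.le, ← mul_assoc, ← Real.rpow_add hL0,
              ← Real.rpow_natCast, ← Real.rpow_add hm0]
            norm_num
          have k3 : (n:ℝ)^(31/48 : ℝ) = (n:ℝ)^(3/4 : ℝ) * (n:ℝ)^(-(5/48) : ℝ) := by
            rw [← Real.rpow_add hn0]; norm_num
          calc cl * (n:ℝ)^(31/48 : ℝ) = κP^11 * cP * ((16 * L : ℝ)^(-(3/4) : ℝ) *
                (n:ℝ)^(3/4 : ℝ)) * (cA κ c0 K * (n:ℝ)^(-(5/48) : ℝ)) := by rw [k3, hcl]; ring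
            _ ≤ κP^11 * cP * ((16 * L : ℝ)^(-(3/4) : ℝ) * (n:ℝ)^(3/4 : ℝ)) * arm ξ M :=
                mul_le_mul_of_nonneg_left g2 (by positivity)
            _ = κP^11 * cP * ((m:ℝ)^2 * (m:ℝ)^(-(5/4) : ℝ)) * arm ξ M := by rw [k1]
            _ = _ := by ring
        have g4 : cl * A^(-(31/48) : ℝ) * t^(-(31/36) : ℝ) ≤ dArm ξ M := by
          refine le_trans ?_ g3
          rw [mul_assoc]
          exact mul_le_mul_of_nonneg_left e31' hcl0.le
        have g5 := theta_le_arm p M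
        have g6 : (p':ℝ) - p = t - s := by rw [hp, hp']; ring
        rw [g6] at hξ
        have g7 := mul_le_mul_of_nonneg_right g4 hts0
        have e : cl * A^(-(31/48) : ℝ) * ((t - s) * t^(-(31/36) : ℝ)) =
            cl * A^(-(31/48) : ℝ) * t^(-(31/36) : ℝ) * (t - s) := by ring
        rw [e]
        linarith
      have hfin : theta p + cl * A^(-(31/48) : ℝ) * ((t - s) * t^(-(31/36) : ℝ)) ≤ theta p' := by
        apply le_theta
        intro M
        exact (hbig (max M (30 * U)) (le_max_right _ _)).trans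
          (arm_anti p'.2.1 p'.2.2 (le_max_left _ _))
      linarith
  · -- upper bound
    rcases eq_or_lt_of_le hst with heq | hlt
    · have : p = p' := Subtype.ext (by rw [hp, hp', heq])
      rw [this, ← heq]; simp
    · obtain ⟨G, hG⟩ : ∃ G : ℝ, G = 8 * (1536 * (N:ℝ))^2 * (1/16) := ⟨_, rfl⟩
      have hj : ∀ j : ℕ, theta p' ≤ arm p (128 * (2^(j + 2) * N)) +
          (t - s) * (Cd * C0 * A^(31/48 : ℝ) * t^(-(31/36) : ℝ) + G * (1/2)^j) := by
        intro j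
        obtain ⟨M, hM⟩ : ∃ M : ℕ, M = 128 * (2^(j + 2) * N) := ⟨_, rfl⟩
        rw [← hM]
        have hNM : N ≤ M := by
          rw [hM]
          have : N ≤ 2^(j + 2) * N := Nat.le_mul_of_pos_left _ (by positivity)
          omega
        obtain ⟨ξ, hξ1, hξ2, hξ⟩ := mvt M (a := (p:ℝ)) (b := (p':ℝ)) (by linarith)
        obtain ⟨hS, -, -⟩ := hq ξ (by linarith) (by linarith)
        rw [← hn] at hS
        have g1 := hup ξ n N hS (j + 2)
        rw [← hM] at g1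
        have hw := hS.W.win
        have g2 : arm ξ M ≤ C0 * (n:ℝ)^(-(5/48) : ℝ) :=
          (arm_anti (by linarith [hw.lo]) (by linarith [hw.hi]) (by omega)).trans
            (hS.W.upp n (by omega) le_rfl)
        have g3 : Cd * (n:ℝ)^(3/4 : ℝ) * arm ξ M ≤ Cd * C0 * A^(31/48 : ℝ) * t^(-(31/36) : ℝ) := by
          have k3 : (n:ℝ)^(31/48 : ℝ) = (n:ℝ)^(3/4 : ℝ) * (n:ℝ)^(-(5/48) : ℝ) := by
            rw [← Real.rpow_add hn0]; norm_num
          calc Cd * (n:ℝ)^(3/4 : ℝ) * arm ξ M ≤ Cd * (n:ℝ)^(3/4 : ℝ) *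
                (C0 * (n:ℝ)^(-(5/48) : ℝ)) := mul_le_mul_of_nonneg_left g2 (by positivity)
            _ = Cd * C0 * (n:ℝ)^(31/48 : ℝ) := by rw [k3]; ring
            _ ≤ Cd * C0 * (A^(31/48 : ℝ) * t^(-(31/36) : ℝ)) :=
                mul_le_mul_of_nonneg_left e31 (by positivity)
            _ = _ := by ring
        have g4 : 8 * (2 * (M : ℝ) + 1)^2 * (1/4)^(2^(j + 2)) ≤ G * (1/2)^j := by
          have k1 : 2 * (M:ℝ) + 1 ≤ 1536 * N * 2^j := by
            have k2 : 2 * M + 1 ≤ 3 * M := by omega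
            have k3 : 3 * M = 1536 * N * 2^j := by rw [hM, pow_add]; ring
            rw [k3] at k2
            exact_mod_cast k2
          have k4 : (2 * (M:ℝ) + 1)^2 ≤ (1536 * N * 2^j)^2 := pow_le_pow_left₀ (by positivity) k1 2
          have k5 : ((2:ℝ)^j)^2 = 4^j := by rw [← pow_mul, mul_comm, pow_mul]; norm_num
          calc 8 * (2 * (M : ℝ) + 1)^2 * (1/4)^(2^(j + 2)) ≤
                8 * (1536 * N * 2^j)^2 * (1/4)^(2^(j + 2)) := by
                apply mul_le_mul_of_nonneg_right _ (by positivity)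
                exact mul_le_mul_of_nonneg_left k4 (by norm_num)
            _ = 8 * (1536 * (N:ℝ))^2 * (4^j * (1/4)^(2^(j + 2))) := by rw [← k5]; ring
            _ ≤ 8 * (1536 * (N:ℝ))^2 * (1/16 * (1/2)^j) :=
                mul_le_mul_of_nonneg_left (quart j) (by positivity)
            _ = _ := by rw [hG]; ring
        have g5 := theta_le_arm p' M
        have g6 : (p':ℝ) - p = t - s := by rw [hp, hp']; ring
        rw [g6] at hξ
        have g7 : dArm ξ M * (t - s) ≤ (Cd * C0 * A^(31/48 : ℝ) * t^(-(31/36) : ℝ) +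
            G * (1/2)^j) * (t - s) := by
          apply mul_le_mul_of_nonneg_right _ hts0
          linarith
        linarith
      have hl1 : Tendsto (fun j : ℕ => arm p (128 * (2^(j + 2) * N)) +
          (t - s) * (Cd * C0 * A^(31/48 : ℝ) * t^(-(31/36) : ℝ) + G * (1/2)^j)) atTop
          (𝓝 (theta p + (t - s) * (Cd * C0 * A^(31/48 : ℝ) * t^(-(31/36) : ℝ) + G * 0))) := by
        apply Tendsto.add
        · apply arm_tendsto
          intro j
          have k1 : j < 2^j := Nat.lt_two_pow_self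
          have k2 : 2^j ≤ 2^(j + 2) := Nat.pow_le_pow_right (by norm_num) (by omega)
          have k3 : 2^(j + 2) ≤ 2^(j + 2) * N := Nat.le_mul_of_pos_right _ (by omega)
          omega
        · apply Tendsto.const_mul
          apply Tendsto.const_add
          apply Tendsto.const_mul
          exact tendsto_pow_atTop_nhds_zero_of_lt_one (by norm_num) (by norm_num)
      have hl2 := ge_of_tendsto' hl1 hj
      rw [mul_zero, add_zero] at hl2
      have k1 : 0 ≤ C0 * A^(5/48 : ℝ) * ((t - s) * t^(-(31/36) : ℝ)) := by positivity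
      have k2 : (Cd * C0 * A^(31/48 : ℝ) + C0 * A^(5/48 : ℝ)) * ((t - s) * t^(-(31/36) : ℝ)) =
          (t - s) * (Cd * C0 * A^(31/48 : ℝ) * t^(-(31/36) : ℝ)) +
          C0 * A^(5/48 : ℝ) * ((t - s) * t^(-(31/36) : ℝ)) := by ring
      rw [k2]
      linarith
  · have g1 := (theta_le_arm p' n).trans (hSp.W.upp n (by omega) le_rfl)
    refine g1.trans ?_
    have g2 : C0 * (n:ℝ)^(-(5/48) : ℝ) ≤ C0 * (A^(5/48 : ℝ) * t^(5/36 : ℝ)) :=
      mul_le_mul_of_nonneg_left e5 hC0.le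
    refine g2.trans ?_
    have g3 : 0 ≤ Cd * C0 * A^(31/48 : ℝ) * t^(5/36 : ℝ) := by positivity
    linarith

end Pool.Agent.W2helper77.OP
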