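import Pool.Agent.H12R2.Sep.PlusFin
import Pool.Agent.H974R2.Piv
import Pool.Agent.H974R2.Circ

/-!
A pivotal edge of the one-arm event from the separated four-arm event: deterministic part.
Unit `U`, tubes of half-width `m`, the edge is `(c1, c2, β)` with `|c1| ≤ m`, `|c2 - 12 U| ≤ m`.
-/

set_option autoImplicit false
set_option maxHeartbeats 1000000

namespace Pool.Agent.W2helper77.OP

open H974 H12S Finset

/-- increasing part of the plus event at `(c1, c2)` -/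
def P1 (U m : ℕ) (c1 c2 : ℤ) (β : Bool) (F : Finset Edg) : Prop :=
  Cn (botV (16 * U)) (topV (16 * U))
    (insert (e0 β) ((↑((trl (-c1) (-c2)).mp F) : Set Edg) ∩ ↑(XV (4 * U) m (16 * U))))

/-- decreasing part of the plus event at `(c1, c2)` -/
def P2 (U m : ℕ) (c1 c2 : ℤ) (β : Bool) (F : Finset Edg) : Prop :=
  ¬ Cn (botV (16 * U)) (topV (16 * U))
    ((((↑((trl (-c1) (-c2)).mp F) : Set Edg) ∩ ↑(XH (4 * U) m (16 * U))) ∪
      ↑(boxE (16 * U) \ XH (4 * U) m (16 * U))) \ {e0 β})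

/-- the three closed crossings -/
def D3 (U : ℕ) (c1 c2 : ℤ) (F : Finset Edg) : Prop :=
  ¬ LRc (8 * U + c1) (16 * U + c1) (-(16 * U) + (c2 - 12 * U)) (16 * U + (c2 - 12 * U)) F ∧
  ¬ LRc (-(16 * U) + c1) (-(8 * U) + c1) (-(16 * U) + (c2 - 12 * U)) (16 * U + (c2 - 12 * U)) F ∧
  ¬ TBc (-(16 * U) + c1) (16 * U + c1) (-(16 * U) + (c2 - 12 * U)) (-(8 * U) + (c2 - 12 * U)) F

/-- the two circuits and the arms -/
def I4 (U n : ℕ) (F : Finset Edg) : Prop :=
  (Circ ((2 * U : ℕ) : ℤ) ((4 * U : ℕ) : ℤ) F ∧ Circ ((18 * U : ℕ) : ℤ) ((24 * U : ℕ) : ℤ) F) ∧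
    (Arm (6 * U) F ∧ XArm (18 * U) n F)

theorem mem_shift {s t x y : ℤ} {b : Bool} {F : Finset Edg} :
    ((x, y, b) : Edg) ∈ (trl (-s) (-t)).mp F ↔ ((x + s, y + t, b) : Edg) ∈ F := by
  rw [LSym.mem_mp, trl_φs, sub_neg_eq_add, sub_neg_eq_add]

theorem P1_reach {U m : ℕ} (hU : 1 ≤ U) {c1 c2 : ℤ} {β : Bool} {F : Finset Edg}
    (h : P1 U m c1 c2 β F) :
    ∃ u v : Vtx, u.2 = c2 - 16 * U ∧ v.2 = c2 + 16 * U ∧
      Reach ((↑(insert ((c1, c2, β) : Edg) F) : Set Edg) ∩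
        ↑(RE (c1 - 4 * U) (c1 + 4 * U) (c2 - 4 * U) (c2 + 4 * U) ∪
          RE (c1 - m) (c1 + m) (c2 - 16 * U) (c2 + 16 * U))) u v := by
  obtain ⟨u, hu, v, hv, hr⟩ := h
  have hu' : u.2 = -((16 * U : ℕ) : ℤ) := hu
  have hv' : v.2 = ((16 * U : ℕ) : ℤ) := hv
  obtain ⟨u1, u2⟩ := u
  obtain ⟨v1, v2⟩ := v
  simp only at hu' hv'
  have h2 := (trl c1 c2).reach hr
  rw [trl_ψ, trl_ψ] at h2
  refine ⟨_, _, ?_, ?_, h2.mono ?_⟩
  · simp only; push_cast at hu'; omega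
  · simp only; push_cast at hv'; omega
  · rintro _ ⟨⟨x, y, b⟩, hg, rfl⟩
    rw [trl_φ]
    rcases hg with hg | ⟨hg1, hg2⟩
    · have e : ((x, y, b) : Edg) = (0, 0, β) := hg
      simp only [Prod.mk.injEq] at e
      obtain ⟨rfl, rfl, rfl⟩ := e
      rw [zero_add, zero_add]
      refine ⟨Finset.mem_coe.2 (Finset.mem_insert_self _ _), ?_⟩
      simp only [Finset.coe_union, Set.mem_union, Finset.mem_coe]
      left
      cases b
      · rw [mem_RE_false]; omega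
      · rw [mem_RE_true]; omega
    · rw [Finset.mem_coe, mem_shift] at hg1
      refine ⟨Finset.mem_coe.2 (Finset.mem_insert_of_mem hg1), ?_⟩
      rw [Finset.mem_coe, XV, Finset.mem_union, boxE] at hg2
      simp only [Finset.coe_union, Set.mem_union, Finset.mem_coe]
      cases b
      · simp only [mem_RE_false] at hg2 ⊢
        push_cast at hg2
        omega
      · simp only [mem_RE_true] at hg2 ⊢
        push_cast at hg2
        omega

theorem open_part {U m n : ℕ} (hm : 1 ≤ m) (hU : 2 * m ≤ U) (hn : 30 * U ≤ n) {c1 c2 : ℤ}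
    (h1 : -(m:ℤ) ≤ c1 ∧ c1 ≤ m) (h2 : 12 * (U:ℤ) - m ≤ c2 ∧ c2 ≤ 12 * U + m) {β : Bool}
    {F : Finset Edg} (hP : P1 U m c1 c2 β F) (hI : I4 U n F) :
    Arm n (insert (c1, c2, β) F) := by
  obtain ⟨⟨hC1, hC2⟩, hA, hX⟩ := hI
  obtain ⟨u, v, hu, hv, hr⟩ := P1_reach (by omega) hP
  obtain ⟨G, hG⟩ : ∃ G : Finset Edg, G = insert (c1, c2, β) F := ⟨_, rfl⟩
  rw [← hG] at hr ⊢
  have hFG : F ⊆ G := by rw [hG]; exact Finset.subset_insert _ _
  -- inner circuit
  obtain ⟨z, hz⟩ := circ_meet (R1 := ((2 * U : ℕ) : ℤ)) (R2 := ((4 * U : ℕ) : ℤ)) (by positivity)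
    (by push_cast; omega) (hC1.mono hFG)
  -- the plus path through the inner circuit
  obtain ⟨x1, x2, hx1, hx2, hr1, hr2⟩ := sub_TB (a := c1 - m) (b := c1 + m) (c := 0)
    (d := ((4 * U : ℕ) : ℤ)) (by push_cast; omega)
    (by
      rintro x y ⟨-, h⟩ g1 g2
      simp only [Finset.coe_union, Set.mem_union, Finset.mem_coe, mem_RE_false] at h
      push_cast at g2
      omega)
    (by
      rintro x y ⟨-, h⟩ g1 g2
      simp only [Finset.coe_union, Set.mem_union, Finset.mem_coe, mem_RE_true] at h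
      push_cast at g2
      omega)
    hr (by rw [hu]; omega) (by rw [hv]; push_cast; omega)
  have hz1 := hz (x1, 0) (x2, ((4 * U : ℕ) : ℤ)) (by unfold inR; push_cast; omega)
    (Or.inr (Or.inr (Or.inr rfl))) (hr1.mono (by
      rintro ⟨x, y, b⟩ ⟨⟨g1, -⟩, g2⟩
      refine ⟨g1, ?_⟩
      rw [Finset.mem_coe] at g2 ⊢
      cases b
      · rw [mem_TBE_false] at g2
        rw [mem_RE_false]; push_cast at g2 ⊢; omega
      · rw [mem_TBE_true] at g2
        rw [mem_RE_true]; push_cast at g2 ⊢; omega))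
  -- the origin
  obtain ⟨w, hw, hwr⟩ := hA
  have hwr' : Reach (↑G : Set Edg) (0, 0) w :=
    hwr.mono (Set.inter_subset_left.trans (by exact_mod_cast hFG))
  obtain ⟨w', hw'1, hw'2, hw'3⟩ := first_exit (a := -((4 * U : ℕ) : ℤ)) (b := ((4 * U : ℕ) : ℤ))
    (c := -((4 * U : ℕ) : ℤ)) (d := ((4 * U : ℕ) : ℤ)) (u := (0, 0))
    (by unfold inR; push_cast; omega) hwr' (by
      unfold onB inR at hw
      push_cast at hw ⊢
      omega)
  have hz0 := hz (0, 0) w' (by unfold inR; push_cast; omega) hw'2 hw'3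
  have hall : Reach (↑G : Set Edg) (0, 0) v := by
    have e1 : Reach (↑G : Set Edg) (0, 0) (x1, 0) :=
      (hz0.mono Set.inter_subset_left).trans (hz1.mono Set.inter_subset_left).symm
    have e2 : Reach (↑G : Set Edg) (x1, 0) v :=
      ((hr2.mono Set.inter_subset_left).symm).trans (hr.mono Set.inter_subset_left)
    exact e1.trans e2
  -- the outer circuit
  obtain ⟨t, ht1, ht2, ht3⟩ := first_exit (a := -((24 * U : ℕ) : ℤ)) (b := ((24 * U : ℕ) : ℤ))
    (c := -((24 * U : ℕ) : ℤ)) (d := ((24 * U : ℕ) : ℤ)) (u := (0, 0))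
    (by unfold inR; push_cast; omega) hall (by
      right; right; right
      rw [hv]; push_cast; omega)
  have hArm : Arm (24 * U) G := ⟨t, ⟨ht1, ht2⟩, ht3⟩
  exact arm_of_glue (r := 18 * U) (R := 24 * U) (by omega) (by omega) hArm (hC2.mono hFG)
    ((BArm_of_XArm hX).mono hFG)

theorem col {S : Set Edg} {x y : ℤ} (k : ℕ)
    (h : ∀ j : ℤ, y ≤ j → j < y + k → ((x, j, false) : Edg) ∈ S) : Reach S (x, y) (x, y + k) := by
  induction k with
  | zero => simpa using Reach.refl S (x, y)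
  | succ k ih =>
    have h1 := ih (fun j h2 h3 => h j h2 (by push_cast; omega))
    have h2 : ((x, y + k, false) : Edg) ∈ S := h (y + k) (by omega) (by push_cast; omega)
    have h3 : Adj S (x, y + k) (x, y + ((k + 1 : ℕ) : ℤ)) := by
      refine ⟨(x, y + k, false), h2, Or.inl ⟨rfl, ?_⟩⟩
      rw [tgt_false]
      push_cast
      rw [add_assoc]
    exact h1.trans h3.reach

theorem top_closed {U m : ℕ} (hU : 2 * m ≤ U) {c1 c2 : ℤ} {β : Bool}
    {F : Finset Edg} (hP : P2 U m c1 c2 β F) :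
    ¬ TBc (-(16 * U)) (16 * U) (-(4 * U)) (4 * U)
      ((trl (-c1) (-c2)).mp (F.erase (c1, c2, β))) := by
  rintro ⟨x, x', hx, hx', hr⟩
  apply hP
  obtain ⟨T, hT⟩ : ∃ T : Set Edg, T =
    (((↑((trl (-c1) (-c2)).mp F) : Set Edg) ∩ ↑(XH (4 * U) m (16 * U))) ∪
      ↑(boxE (16 * U) \ XH (4 * U) m (16 * U))) \ {e0 β} := ⟨_, rfl⟩
  rw [← hT]
  have hmid : Reach T (x, -(4 * (U:ℤ))) (x', 4 * (U:ℤ)) := by
    refine hr.mono ?_
    rintro ⟨a, b, o⟩ ⟨g1, g2⟩
    rw [Finset.mem_coe] at g1 g2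
    rw [mem_shift, Finset.mem_erase] at g1
    have hbox : ((a, b, o) : Edg) ∈ boxE (16 * U) := by
      unfold boxE
      cases o
      · rw [mem_TBE_false] at g2; rw [mem_RE_false]; push_cast; omega
      · rw [mem_TBE_true] at g2; rw [mem_RE_true]; push_cast; omega
    rw [hT]
    refine ⟨?_, ?_⟩
    · by_cases hXH : ((a, b, o) : Edg) ∈ XH (4 * U) m (16 * U)
      · left
        exact ⟨by rw [Finset.mem_coe, mem_shift]; exact g1.2, hXH⟩
      · right
        rw [Finset.mem_coe, Finset.mem_sdiff]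
        exact ⟨hbox, hXH⟩
    · intro he
      apply g1.1
      have e : ((a, b, o) : Edg) = (0, 0, β) := he
      simp only [Prod.mk.injEq] at e
      obtain ⟨rfl, rfl, rfl⟩ := e
      rw [zero_add, zero_add]
  have hcol : ∀ j a : ℤ, -(16 * (U:ℤ)) ≤ a → a ≤ 16 * U →
      ((-(16 * (U:ℤ)) ≤ j ∧ j < -(4 * U)) ∨ (4 * (U:ℤ) ≤ j ∧ j < 16 * U)) →
      ((a, j, false) : Edg) ∈ T := by
    intro j a ha1 ha2 hj
    rw [hT]
    refine ⟨Or.inr ?_, ?_⟩
    · rw [Finset.mem_coe, Finset.mem_sdiff]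
      unfold XH boxE
      rw [Finset.mem_union]
      simp only [mem_RE_false]
      push_cast
      omega
    · intro he
      have e : ((a, j, false) : Edg) = (0, 0, β) := he
      simp only [Prod.mk.injEq] at e
      omega
  have hlow : Reach T (x, -(16 * (U:ℤ))) (x, -(4 * (U:ℤ))) := by
    have h3 := col (S := T) (x := x) (y := -(16 * (U:ℤ))) (12 * U) (fun j g1 g2 =>
      hcol j x hx.1 hx.2 (Or.inl ⟨g1, by push_cast at g2; omega⟩))
    have e : -(16 * (U:ℤ)) + ((12 * U : ℕ) : ℤ) = -(4 * (U:ℤ)) := by push_cast; ring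
    rw [e] at h3
    exact h3
  have hupp : Reach T (x', 4 * (U:ℤ)) (x', 16 * (U:ℤ)) := by
    have h3 := col (S := T) (x := x') (y := 4 * (U:ℤ)) (12 * U) (fun j g1 g2 =>
      hcol j x' hx'.1 hx'.2 (Or.inr ⟨g1, by push_cast at g2; omega⟩))
    have e : 4 * (U:ℤ) + ((12 * U : ℕ) : ℤ) = 16 * (U:ℤ) := by push_cast; ring
    rw [e] at h3
    exact h3
  refine ⟨(x, -(16 * (U:ℤ))), ?_, (x', 16 * (U:ℤ)), ?_, hlow.trans (hmid.trans hupp)⟩
  · show -(16 * (U:ℤ)) = -((16 * U : ℕ) : ℤ)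
    push_cast; ring
  · show 16 * (U:ℤ) = ((16 * U : ℕ) : ℤ)
    push_cast; ring

theorem closed_part {U m n : ℕ} (hm : 1 ≤ m) (hU : 2 * m ≤ U) (hn : 30 * U ≤ n) {c1 c2 : ℤ}
    (h1 : -(m:ℤ) ≤ c1 ∧ c1 ≤ m) (h2 : 12 * (U:ℤ) - m ≤ c2 ∧ c2 ≤ 12 * U + m) {β : Bool}
    {F : Finset Edg} (hP : P2 U m c1 c2 β F) (hD : D3 U c1 c2 F) :
    ¬ Arm n (F.erase (c1, c2, β)) := by
  rintro ⟨v, hv, hr⟩
  obtain ⟨z2, hz2⟩ : ∃ z2 : ℤ, z2 = c2 - 12 * U := ⟨_, rfl⟩
  obtain ⟨G, hG⟩ : ∃ G : Finset Edg, G = F.erase (c1, c2, β) := ⟨_, rfl⟩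
  have htop := top_closed hU hP
  rw [← hG] at htop hr
  have hGF : G ⊆ F := by rw [hG]; exact Finset.erase_subset _ _
  unfold D3 at hD
  rw [← hz2] at hD
  obtain ⟨d1, d2, d3⟩ := hD
  have hback : ∀ a b c d : ℤ, TBc a b c d ((trl (-c1) (-z2)).mp G) →
      TBc (a + c1) (b + c1) (c + z2) (d + z2) G := by
    intro a b c d h
    have h3 := TBc_trl (s := c1) (t := z2) h
    have e := trl_trl (-c1) (-z2) G
    rw [neg_neg, neg_neg] at e
    rw [e] at h3
    exact h3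
  have hbackL : ∀ a b c d : ℤ, LRc a b c d ((trl (-c1) (-z2)).mp G) →
      LRc (a + c1) (b + c1) (c + z2) (d + z2) G := by
    intro a b c d h
    have h3 := LRc_trl (s := c1) (t := z2) h
    have e := trl_trl (-c1) (-z2) G
    rw [neg_neg, neg_neg] at e
    rw [e] at h3
    exact h3
  have hB : Blk (8 * U) (16 * U) ((trl (-c1) (-z2)).mp G) := by
    refine ⟨?_, ?_⟩
    · rintro (h | h)
      · exact d1 ((hbackL _ _ _ _ h).mono hGF)
      · exact d2 ((hbackL _ _ _ _ h).mono hGF)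
    · rintro (h | h)
      · apply htop
        have h3 := TBc_trl (s := -c1) (t := -c2) (hback _ _ _ _ h)
        have e1 : -(16 * (U:ℤ)) + c1 + -c1 = -(16 * U) := by ring
        have e2 : 16 * (U:ℤ) + c1 + -c1 = 16 * U := by ring
        have e3 : 8 * (U:ℤ) + z2 + -c2 = -(4 * U) := by rw [hz2]; ring
        have e4 : 16 * (U:ℤ) + z2 + -c2 = 4 * U := by rw [hz2]; ring
        rw [e1, e2, e3, e4] at h3
        exact h3
      · exact d3 ((hback _ _ _ _ h).mono hGF)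
  have hr2 : Reach (↑((trl (-c1) (-z2)).mp G) : Set Edg) (0 + -c1, 0 + -z2)
      (v.1 + -c1, v.2 + -z2) := by
    have h3 := (trl (-c1) (-z2)).reach (hr.mono Set.inter_subset_left)
    rw [← LSym.coe_mp] at h3
    exact h3
  refine not_blk_of_reach (by omega) ?_ hr2 ?_ hB
  · unfold inR
    simp only
    omega
  · unfold onB inR at hv
    simp only
    omega

end Pool.Agent.W2helper77.OP
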