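import Pool.Agent.W2helper77.TP.Near
import Pool.Agent.H31R3.Kes.Count

/-!
Upper bounds for the probability that an edge is pivotal for the one-arm event, also at distances
beyond the correlation length.
-/

set_option autoImplicit false
set_option maxHeartbeats 1000000

namespace Pool.Agent.W2helper77.OP

open H974 H31K Finset Pool.Agent.W2helper77.TP

theorem pr_erase_le {q : ℝ} (h0 : 0 ≤ q) (h1 : q ≤ 1) {S : Finset Edg} {e : Edg} (he : e ∈ S)
    (A : Finset Edg → Prop) : (1 - q) * Pr (fun _ => q) (S.erase e) A ≤ Pr (fun _ => q) S A := by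
  have ok := okq h0 h1
  have h2 : S = insert e (S.erase e) := (Finset.insert_erase he).symm
  conv_rhs => rw [h2]
  unfold Pr
  rw [Ex_insert _ (Finset.notMem_erase e S)]
  have h3 : 0 ≤ Ex (fun _ : Edg => q) (S.erase e) (fun F => ind (A (insert e F))) :=
    Ex_nonneg ok (fun _ _ => ind_nonneg _)
  nlinarith

theorem pr_erase_ins {q : ℝ} (h0 : 0 ≤ q) (h1 : q ≤ 1) {S : Finset Edg} {e : Edg} (he : e ∈ S)
    (A : Finset Edg → Prop) :
    q * Pr (fun _ => q) (S.erase e) (fun F => A (insert e F)) ≤ Pr (fun _ => q) S A := by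
  have ok := okq h0 h1
  have h2 : S = insert e (S.erase e) := (Finset.insert_erase he).symm
  conv_rhs => rw [h2]
  unfold Pr
  rw [Ex_insert _ (Finset.notMem_erase e S)]
  have h3 : 0 ≤ Ex (fun _ : Edg => q) (S.erase e) (fun F => ind (A F)) :=
    Ex_nonneg ok (fun _ _ => ind_nonneg _)
  have h4 : 0 ≤ (1 - q) * Ex (fun _ : Edg => q) (S.erase e) (fun F => ind (A F)) :=
    mul_nonneg (by linarith) h3
  linarith

/-- trivial bound -/
theorem piv_triv {q : ℝ} (h0 : 1/4 ≤ q) (h1 : q ≤ 1) {M : ℕ} {e : Edg} (he : e ∈ boxE M) :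
    Pr (fun _ => q) ((boxE M).erase e) (PivA M e) ≤ 4 * arm q M := by
  have ok := okq (by linarith : 0 ≤ q) h1
  have h2 := pr_erase_ins (by linarith) h1 he (Arm M)
  have h3 : Pr (fun _ => q) ((boxE M).erase e) (PivA M e) ≤
      Pr (fun _ => q) ((boxE M).erase e) (fun F => Arm M (insert e F)) :=
    Pr_mono ok (fun F _ hF => hF.1)
  have h4 : 0 ≤ Pr (fun _ => q) ((boxE M).erase e) (PivA M e) := Pr_nonneg ok _ _
  have h5 : Pr (fun _ => q) (boxE M) (Arm M) = arm q M := rfl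
  rw [h5] at h2
  nlinarith

theorem adm {M r r' : ℕ} (hr : 1 ≤ r) (hrr : r ≤ r') {e : Edg} (he : e ∈ boxE M)
    (h5 : 8 * r' + r ≤ Mx e) (h6 : Mx e + 8 * r' + r ≤ M) :
    Adm M (2 * r * (tt r e).1 + r) (2 * r * (tt r e).2 + r) r' := by
  obtain ⟨⟨h1, h2⟩, h3, h4⟩ := tt_spec hr e
  have hc := box_coord he
  unfold Mx at h5 h6
  generalize 2 * (r:ℤ) * (tt r e).1 + r = c1 at *
  generalize 2 * (r:ℤ) * (tt r e).2 + r = c2 at *
  constructor <;> omega

/-- a box is pivotal: bound by the one-arm probability -/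
theorem pb_near {q κ : ℝ} {n M r : ℕ} {c1 c2 : ℤ} (hW : H12S.Win q κ n) (ha : Adm M c1 c2 r)
    (hrn : r + 1 ≤ n) :
    κ^4 * Pr (fun _ => q) (boxE M) (PB M c1 c2 r) ≤ arm q M := by
  have ok := okWin hW
  have hk := hW.kpos
  have h1 := pO_ge hW c1 c2 ha.pos hrn
  have h2 : Pr (fun _ => q) (boxE M) (OC c1 c2 r) = pO q c1 c2 r :=
    pr_OC q ha.pos (Bg_sub ha)
  have h3 : Pr (fun _ => q) (boxE M) (fun F => Arm M (F ∪ Lam c1 c2 r)) *
      Pr (fun _ => q) (boxE M) (OC c1 c2 r) ≤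
      Pr (fun _ => q) (boxE M) (fun F => Arm M (F ∪ Lam c1 c2 r) ∧ OC c1 c2 r F) :=
    Pr_harris ok (fun F G h _ hF => hF.mono (Finset.union_subset_union_left h))
      (fun F G h _ hF => OC_mono h hF)
  have h4 : Pr (fun _ => q) (boxE M) (fun F => Arm M (F ∪ Lam c1 c2 r) ∧ OC c1 c2 r F) ≤
      arm q M := Pr_mono ok (fun F _ hF => OC_arm ha hF.2 hF.1)
  have h5 : Pr (fun _ => q) (boxE M) (PB M c1 c2 r) ≤
      Pr (fun _ => q) (boxE M) (fun F => Arm M (F ∪ Lam c1 c2 r)) :=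
    Pr_mono ok (fun F _ hF => hF.1)
  have h6 : 0 ≤ Pr (fun _ => q) (boxE M) (PB M c1 c2 r) := Pr_nonneg ok _ _
  rw [h2] at h3
  calc κ^4 * Pr (fun _ => q) (boxE M) (PB M c1 c2 r)
      ≤ pO q c1 c2 r * Pr (fun _ => q) (boxE M) (fun F => Arm M (F ∪ Lam c1 c2 r)) :=
        mul_le_mul h1 h5 h6 ((by positivity : (0:ℝ) ≤ κ^4).trans h1)
    _ ≤ arm q M := by rw [mul_comm]; exact h3.trans h4

/-- `OC` does not see a smaller box -/
theorem OC_sdiff {c1 c2 : ℤ} {r r' : ℕ} (hrr : r < r') {F : Finset Edg} (h : OC c1 c2 r' F) :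
    OC c1 c2 r' (F \ Lam c1 c2 r) := by
  unfold OC at h ⊢
  have hsub : ∀ T : Finset Edg, (∀ g ∈ T, (4 * (r':ℤ) ≤ g.1 ∨ g.1 + 1 ≤ -(4 * (r':ℤ)) ∨
      4 * (r':ℤ) ≤ g.2.1 ∨ g.2.1 + 1 ≤ -(4 * (r':ℤ)) ∨ (g.1 = -(4 * (r':ℤ)) ∧ g.2.2 = false) ∨
        (g.2.1 = -(4 * (r':ℤ)) ∧ g.2.2 = true))) →
      (trl (-c1) (-c2)).mp (F \ Lam c1 c2 r) ∩ T = (trl (-c1) (-c2)).mp F ∩ T := by
    intro T hT
    rw [LSym.mp_sdiff]
    ext ⟨x, y, b⟩
    simp only [Finset.mem_inter, Finset.mem_sdiff]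
    constructor
    · rintro ⟨⟨k1, -⟩, k2⟩; exact ⟨k1, k2⟩
    · rintro ⟨k1, k2⟩
      refine ⟨⟨k1, ?_⟩, k2⟩
      rw [LSym.mem_mp, trl_φs]
      have k3 := hT _ k2
      simp only at k3
      unfold Lam
      intro k4
      cases b
      · rw [mem_RE_false] at k4
        simp at k3
        omega
      · rw [mem_RE_true] at k4
        simp at k3
        omega
  have hL : ∀ a b c d : ℤ, (∀ g ∈ LRE a b c d, (4 * (r':ℤ) ≤ g.1 ∨ g.1 + 1 ≤ -(4 * (r':ℤ)) ∨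
      4 * (r':ℤ) ≤ g.2.1 ∨ g.2.1 + 1 ≤ -(4 * (r':ℤ)) ∨ (g.1 = -(4 * (r':ℤ)) ∧ g.2.2 = false) ∨
        (g.2.1 = -(4 * (r':ℤ)) ∧ g.2.2 = true))) →
      LRc a b c d ((trl (-c1) (-c2)).mp F) → LRc a b c d ((trl (-c1) (-c2)).mp (F \ Lam c1 c2 r)) := by
    intro a b c d hT hF
    rw [LRc_local (Finset.Subset.refl _)] at hF ⊢
    rw [hsub _ hT]
    exact hF
  have hTB : ∀ a b c d : ℤ, (∀ g ∈ TBE a b c d, (4 * (r':ℤ) ≤ g.1 ∨ g.1 + 1 ≤ -(4 * (r':ℤ)) ∨
      4 * (r':ℤ) ≤ g.2.1 ∨ g.2.1 + 1 ≤ -(4 * (r':ℤ)) ∨ (g.1 = -(4 * (r':ℤ)) ∧ g.2.2 = false) ∨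
        (g.2.1 = -(4 * (r':ℤ)) ∧ g.2.2 = true))) →
      TBc a b c d ((trl (-c1) (-c2)).mp F) → TBc a b c d ((trl (-c1) (-c2)).mp (F \ Lam c1 c2 r)) := by
    intro a b c d hT hF
    rw [TBc_local (Finset.Subset.refl _)] at hF ⊢
    rw [hsub _ hT]
    exact hF
  obtain ⟨⟨g1, g2⟩, g3, g4⟩ := h
  refine ⟨⟨hL _ _ _ _ ?_ g1, hL _ _ _ _ ?_ g2⟩, hTB _ _ _ _ ?_ g3, hTB _ _ _ _ ?_ g4⟩
  · rintro ⟨x, y, b⟩ hg
    cases b
    · rw [mem_LRE_false] at hg; push_cast at hg; simp only; simp; omega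
    · rw [mem_LRE_true] at hg; push_cast at hg; simp only; simp; omega
  · rintro ⟨x, y, b⟩ hg
    cases b
    · rw [mem_LRE_false] at hg; push_cast at hg; simp only; simp; omega
    · rw [mem_LRE_true] at hg; push_cast at hg; simp only; simp; omega
  · rintro ⟨x, y, b⟩ hg
    cases b
    · rw [mem_TBE_false] at hg; push_cast at hg; simp only; simp; omega
    · rw [mem_TBE_true] at hg; push_cast at hg; simp only; simp; omega
  · rintro ⟨x, y, b⟩ hg
    cases b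
    · rw [mem_TBE_false] at hg; push_cast at hg; simp only; simp; omega
    · rw [mem_TBE_true] at hg; push_cast at hg; simp only; simp; omega

theorem Lam_mono {c1 c2 : ℤ} {r r' : ℕ} (h : r ≤ r') : Lam c1 c2 r ⊆ Lam c1 c2 r' := by
  unfold Lam
  apply RE_subset <;> omega

/-- a far box is pivotal: one arm near the origin and no open circuit around the box -/
theorem pb_far {q : ℝ} (h0 : 0 ≤ q) (h1 : q ≤ 1) {N : ℕ} (hN : 2 ≤ N) (he : eps q N ≤ 1/100)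
    (j : ℕ) {n M r : ℕ} {c1 c2 : ℤ} (hr : r < 2^j * N) (ha : Adm M c1 c2 (2^j * N))
    (hn : n ≤ M) (hd : Disjoint (Bg c1 c2 (2^j * N)) (boxE n)) :
    Pr (fun _ => q) (boxE M) (PB M c1 c2 r) ≤ arm q n * (1/4)^(2^(j + 2)) := by
  have ok := okq h0 h1
  obtain ⟨r', hr'⟩ : ∃ r' : ℕ, r' = 2^j * N := ⟨_, rfl⟩
  rw [← hr'] at hr ha hd
  have hsub := Bg_sub ha
  have hLB : Lam c1 c2 r ⊆ Bg c1 c2 r' := (Lam_mono hr.le).trans Lam_sub_Bg
  have i1 : Pr (fun _ => q) (boxE M) (PB M c1 c2 r) ≤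
      Pr (fun _ => q) (boxE M) (fun F => Arm n F ∧ ¬ OC c1 c2 r' F) := by
    apply Pr_mono ok
    rintro F _ ⟨k1, k2⟩
    constructor
    · have k3 := Arm_anti hn k1
      rw [Arm_local (Finset.Subset.refl (boxE n))] at k3
      refine k3.mono ?_
      intro g hg
      rw [Finset.mem_inter, Finset.mem_union] at hg
      rcases hg.1 with h | h
      · exact h
      · exact absurd hg.2 (Finset.disjoint_left.1 hd (hLB h))
    · intro hO
      apply k2
      apply OC_arm ha (OC_sdiff hr hO)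
      refine k1.mono ?_
      intro g hg
      rw [Finset.mem_union] at hg ⊢
      rw [Finset.mem_sdiff]
      by_cases hgL : g ∈ Lam c1 c2 r'
      · exact Or.inr hgL
      · left
        rcases hg with h | h
        · exact ⟨h, fun h2 => hgL (Lam_mono hr.le h2)⟩
        · exact absurd (Lam_mono hr.le h) hgL
  have i2 : Pr (fun _ => q) (boxE M) (fun F => Arm n F ∧ ¬ OC c1 c2 r' F) =
      Pr (fun _ => q) (boxE M) (Arm n) * Pr (fun _ => q) (boxE M) (fun F => ¬ OC c1 c2 r' F) := by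
    apply Pr_indep (boxE_mono hn) hsub hd.symm
    · intro F _
      exact Arm_local (Finset.Subset.refl _)
    · intro F _
      rw [← OC_local ha.pos (Finset.Subset.refl _) F]
  have i3 : Pr (fun _ => q) (boxE M) (fun F => ¬ OC c1 c2 r' F) ≤ (1/4)^(2^(j + 2)) := by
    have e1 : Pr (fun _ => q) (boxE M) (fun F => ¬ OC c1 c2 r' F) =
        Pr (fun _ => q) (Bg c1 c2 r') (fun F => ¬ OC c1 c2 r' F) := by
      apply Pr_local hsub
      intro F _
      rw [← OC_local ha.pos (Finset.Subset.refl _) F]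
    have e2 : Pr (fun _ => q) (Bg c1 c2 r') (fun F => ¬ OC c1 c2 r' F) =
        Pr (fun _ => q) ((trl (-c1) (-c2)).mp (Bg c1 c2 r'))
          (fun F => ¬ Circ ((4 * r' : ℕ) : ℤ) ((8 * r' : ℕ) : ℤ) F) :=
      ((trl (-c1) (-c2)).pr q (Bg c1 c2 r')
        (fun F => ¬ Circ ((4 * r' : ℕ) : ℤ) ((8 * r' : ℕ) : ℤ) F)).symm
    rw [e1, e2, trl_Bg]
    have e4 : 2^(j + 2) * N = 4 * r' := by rw [hr', pow_add]; ring
    have e8 : 2 * (2^(j + 2) * N) = 8 * r' := by rw [e4]; ring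
    have hch := pr_chain h0 h1 hN he (j + 2) 0 (S := boxE (8 * r')) (by
      rw [pow_zero, one_mul, e8])
    rw [e8, e4] at hch
    refine le_trans (Pr_mono ok ?_) hch
    intro F _ hF hc
    exact hF hc.1
  rw [i2, pr_Arm q (boxE_mono hn)] at i1
  exact i1.trans (mul_le_mul_of_nonneg_left i3 (arm_nonneg h0 h1 n))

/-- an edge near the boundary of a large box -/
theorem piv_last {q : ℝ} (h0 : 0 ≤ q) (h1 : q ≤ 3/4) {N : ℕ} (hN : 2 ≤ N) (he : eps q N ≤ 1/100)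
    (J K : ℕ) {M : ℕ} (hM : M = 2 * (2^K * (2^J * N))) {e : Edg} (heM : e ∈ boxE M)
    (hfar : 2 * (2^J * N) < Mx e) :
    Pr (fun _ => q) ((boxE M).erase e) (PivA M e) ≤ 4 * (1/4)^(2^J) := by
  have ok := okq h0 (by linarith : q ≤ 1)
  have hN2 : 2 ≤ 2^J * N := le_trans hN (Nat.le_mul_of_pos_left _ (by positivity))
  have h2 : Pr (fun _ => q) ((boxE M).erase e) (PivA M e) ≤
      Pr (fun _ => q) ((boxE M).erase e) (fun F => ¬ (Circ ((2^J * N : ℕ):ℤ)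
        ((2 * (2^J * N) : ℕ):ℤ) F ∧ ∀ j ≤ K, Step (2^J * N) j F)) := by
    apply Pr_mono ok
    rintro F _ ⟨k1, k2⟩ ⟨k3, k4⟩
    apply k2
    have hle : 2 * (2^J * N) ≤ M := by
      rw [hM]
      exact Nat.mul_le_mul_left _ (Nat.le_mul_of_pos_left _ (by positivity))
    have k5 := Arm_anti hle k1
    rw [Arm_local (Finset.Subset.refl _)] at k5
    have k6 : Arm (2 * (2^J * N)) F := by
      refine k5.mono ?_
      intro g hg
      rw [Finset.mem_inter, Finset.mem_insert] at hg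
      rcases hg.1 with h | h
      · exfalso
        rw [h] at hg
        have := Mx_le hg.2
        omega
      · exact h
    rw [hM]
    exact arm_of_chain hN2 K k6 k3 k4
  have h3 := pr_erase_le h0 (by linarith) heM (fun F => ¬ (Circ ((2^J * N : ℕ):ℤ)
        ((2 * (2^J * N) : ℕ):ℤ) F ∧ ∀ j ≤ K, Step (2^J * N) j F))
  have h4 := pr_chain h0 (by linarith) hN he J K (S := boxE M) (by rw [hM])
  have h5 : 0 ≤ Pr (fun _ => q) ((boxE M).erase e) (fun F => ¬ (Circ ((2^J * N : ℕ):ℤ)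
        ((2 * (2^J * N) : ℕ):ℤ) F ∧ ∀ j ≤ K, Step (2^J * N) j F)) := Pr_nonneg ok _ _
  nlinarith

end Pool.Agent.W2helper77.OP
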