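import Pool.Agent.W2helper77.OP.UpSum

/-!
Upper bound for the derivative of the one-arm probability in the supercritical phase: summation.
-/

set_option autoImplicit false
set_option maxHeartbeats 1000000

namespace Pool.Agent.W2helper77.OP

open H974 H31K Finset Pool.Agent.W2helper77.TP

theorem mid_exists (N ρ : ℕ) (h1 : 32 * N < ρ) (J : ℕ) : ρ ≤ 64 * (2^J * N) →
    ∃ j ∈ range (J + 1), 32 * (2^j * N) < ρ ∧ ρ ≤ 64 * (2^j * N) := by
  induction J with
  | zero =>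
    intro h2
    refine ⟨0, by simp, ?_, h2⟩
    simpa using h1
  | succ J ih =>
    intro h2
    rcases Nat.lt_or_ge (32 * (2^(J + 1) * N)) ρ with h3 | h3
    · exact ⟨J + 1, by simp, h3, h2⟩
    · obtain ⟨j, hj, h4⟩ := ih (by
        have e : 2^(J + 1) * N = 2 * (2^J * N) := by rw [pow_succ]; ring
        rw [e] at h3
        omega)
      exact ⟨j, by rw [Finset.mem_range] at hj ⊢; omega, h4⟩

theorem quart (j : ℕ) : (4:ℝ)^j * (1/4)^(2^(j + 2)) ≤ 1/16 * (1/2)^j := by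
  have h1 : j + 1 ≤ 2^j := Nat.lt_two_pow_self
  have h2 : 4 * (j + 1) ≤ 2^(j + 2) := by
    rw [pow_add]; omega
  have h3 : ((1:ℝ)/4)^(2^(j + 2)) ≤ (1/4)^(4 * (j + 1)) :=
    pow_le_pow_of_le_one (by norm_num) (by norm_num) h2
  calc (4:ℝ)^j * (1/4)^(2^(j + 2)) ≤ 4^j * (1/4)^(4 * (j + 1)) :=
        mul_le_mul_of_nonneg_left h3 (by positivity)
    _ = 1/256 * ((4:ℝ)^j * (1/4)^j) * (1/64)^j := by
        rw [show 4 * (j + 1) = j + (3 * j + 4) by ring, pow_add, pow_add, pow_mul]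
        norm_num
        ring
    _ = 1/256 * (1/64)^j := by
        rw [← mul_pow]; norm_num
    _ ≤ 1/16 * (1/2)^j := by
        apply mul_le_mul (by norm_num) _ (by positivity) (by norm_num)
        exact pow_le_pow_left₀ (by norm_num) (by norm_num) j

theorem dArm_up {κ c0 C0 B : ℝ} (hκ : 0 < κ) (hc0 : 0 < c0) (hC0 : 0 < C0) (hB : 0 < B) {K : ℕ}
    (hK : 1 ≤ K) : ∃ C : ℝ, 0 < C ∧ ∀ (q : ℝ) (n N : ℕ), Sc q κ c0 C0 B K n N → ∀ J : ℕ,
      dArm q (128 * (2^J * N)) ≤ C * (n:ℝ)^(3/4 : ℝ) * arm q (128 * (2^J * N)) +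
        8 * (2 * ((128 * (2^J * N) : ℕ) : ℝ) + 1)^2 * (1/4)^(2^J) := by
  have hK0 : (0:ℝ) < K := by exact_mod_cast (by omega : 0 < K)
  have hcA := cA_pos hκ hc0 hK
  have hC1 : 0 < C1 κ B K := by unfold C1; positivity
  refine ⟨C1 κ B K * (64/3 * (33 * K : ℝ)^(3/4 : ℝ)) +
    C0 / cA κ c0 K * (B * (11:ℝ)^(5/4 : ℝ)) * (4225 * (K:ℝ)^2), by positivity, ?_⟩
  intro q n N h J
  have hW := h.W.win
  have h0 : 0 ≤ q := by linarith [hW.lo]
  have h1 : q ≤ 1 := by linarith [hW.hi]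
  have ok := okq h0 h1
  have hn := h.n64
  have hN1 := h.N1
  have hN2 := h.N2
  have hn0 : (0:ℝ) < n := by exact_mod_cast (by omega : 0 < n)
  obtain ⟨M, hM⟩ : ∃ M : ℕ, M = 128 * (2^J * N) := ⟨_, rfl⟩
  rw [← hM]
  have hNJ : N ≤ 2^J * N := Nat.le_mul_of_pos_left _ (by positivity)
  have ha := arm_nonneg h0 h1 M
  obtain ⟨f, hf⟩ : ∃ f : Edg → ℝ, f = fun e => Pr (fun _ => q) ((boxE M).erase e) (PivA M e) :=
    ⟨_, rfl⟩
  have hf0 : ∀ e, 0 ≤ f e := fun e => by rw [hf]; exact Pr_nonneg ok _ _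
  have hd : dArm q M = ∑ e ∈ boxE M, f e := by rw [hf]; rfl
  -- the three parts
  have hsplit : ∑ e ∈ boxE M, f e ≤
      ∑ e ∈ (boxE M).filter (fun e => Mx e ≤ 32 * N), f e +
      (∑ j ∈ range (J + 1), ∑ e ∈ (boxE M).filter (fun e => 32 * (2^j * N) < Mx e ∧
        Mx e ≤ 64 * (2^j * N)), f e +
      ∑ e ∈ (boxE M).filter (fun e => 64 * (2^J * N) < Mx e), f e) := by
    simp only [Finset.sum_filter]
    rw [Finset.sum_comm, ← Finset.sum_add_distrib, ← Finset.sum_add_distrib]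
    apply Finset.sum_le_sum
    intro e _
    have hnn : ∀ P : Prop, ∀ _ : Decidable P, 0 ≤ (if P then f e else 0) := by
      intro P _
      split_ifs
      · exact hf0 e
      · exact le_rfl
    rcases Nat.lt_or_ge (32 * N) (Mx e) with g1 | g1
    · rcases Nat.lt_or_ge (64 * (2^J * N)) (Mx e) with g2 | g2
      · have k1 := hnn (Mx e ≤ 32 * N) inferInstance
        have k2 : 0 ≤ ∑ j ∈ range (J + 1), (if 32 * (2^j * N) < Mx e ∧ Mx e ≤ 64 * (2^j * N)
            then f e else 0) := Finset.sum_nonneg (fun j _ => hnn _ inferInstance)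
        rw [if_pos g2]
        linarith
      · obtain ⟨j, hj, hj2⟩ := mid_exists N (Mx e) g1 J g2
        have k1 := hnn (Mx e ≤ 32 * N) inferInstance
        have k3 := hnn (64 * (2^J * N) < Mx e) inferInstance
        have k2 : f e ≤ ∑ j ∈ range (J + 1), (if 32 * (2^j * N) < Mx e ∧ Mx e ≤ 64 * (2^j * N)
            then f e else 0) := by
          have k4 := Finset.single_le_sum (f := fun j => (if 32 * (2^j * N) < Mx e ∧
            Mx e ≤ 64 * (2^j * N) then f e else 0)) (fun j _ => hnn _ inferInstance) hj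
          rw [if_pos hj2] at k4
          exact k4
        linarith
    · have k3 := hnn (64 * (2^J * N) < Mx e) inferInstance
      have k2 : 0 ≤ ∑ j ∈ range (J + 1), (if 32 * (2^j * N) < Mx e ∧ Mx e ≤ 64 * (2^j * N)
          then f e else 0) := Finset.sum_nonneg (fun j _ => hnn _ inferInstance)
      rw [if_pos g1]
      linarith
  -- near
  have hnear : ∑ e ∈ (boxE M).filter (fun e => Mx e ≤ 32 * N), f e ≤
      C1 κ B K * (64/3 * (33 * K : ℝ)^(3/4 : ℝ)) * (n:ℝ)^(3/4 : ℝ) * arm q M := by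
    have s1 : ∑ e ∈ (boxE M).filter (fun e => Mx e ≤ 32 * N), f e ≤
        ∑ e ∈ (boxE M).filter (fun e => Mx e ≤ 32 * N),
          C1 κ B K * arm q M * ((Mx e : ℝ) + 1)^(-(5/4) : ℝ) := by
      apply Finset.sum_le_sum
      intro e he
      rw [Finset.mem_filter] at he
      rw [hf]
      exact near_edge h (by omega) he.1 he.2
    have s2 := sum_radial (M := M) (R := 32 * N)
      (g := fun ρ => C1 κ B K * arm q M * ((ρ : ℝ) + 1)^(-(5/4) : ℝ)) (fun ρ => by positivity)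
    have s3 : ∑ ρ ∈ range (32 * N + 1), 16 * ((ρ:ℝ) + 1) *
        (C1 κ B K * arm q M * ((ρ : ℝ) + 1)^(-(5/4) : ℝ)) =
        16 * (C1 κ B K * arm q M) * ∑ ρ ∈ range (32 * N + 1), ((ρ : ℝ) + 1)^(-(1/4) : ℝ) := by
      rw [Finset.mul_sum]
      apply Finset.sum_congr rfl
      intro ρ _
      have hx : (0:ℝ) < (ρ:ℝ) + 1 := by positivity
      have e : ((ρ:ℝ) + 1)^(-(1/4) : ℝ) = ((ρ:ℝ) + 1) * ((ρ:ℝ) + 1)^(-(5/4) : ℝ) := by
        rw [show (-(1/4) : ℝ) = 1 + -(5/4) by norm_num, Real.rpow_add hx, Real.rpow_one]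
      rw [e]; ring
    have s4 := pow_sum (32 * N + 1)
    have s5 : (((32 * N + 1 : ℕ) : ℝ))^(3/4 : ℝ) ≤ (33 * K : ℝ)^(3/4 : ℝ) * (n:ℝ)^(3/4 : ℝ) := by
      rw [← Real.mul_rpow (by positivity) hn0.le]
      apply Real.rpow_le_rpow (by positivity) _ (by norm_num)
      have : 32 * N + 1 ≤ 33 * K * n := by
        have : 33 * N ≤ 33 * (K * n) := Nat.mul_le_mul_left _ hN2
        have e : 33 * K * n = 33 * (K * n) := by ring
        omega
      exact_mod_cast this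
    refine s1.trans (s2.trans ?_)
    rw [s3]
    calc 16 * (C1 κ B K * arm q M) * ∑ ρ ∈ range (32 * N + 1), ((ρ : ℝ) + 1)^(-(1/4) : ℝ)
        ≤ 16 * (C1 κ B K * arm q M) * (4/3 * (((32 * N + 1 : ℕ) : ℝ))^(3/4 : ℝ)) :=
          mul_le_mul_of_nonneg_left s4 (by positivity)
      _ ≤ 16 * (C1 κ B K * arm q M) * (4/3 * ((33 * K : ℝ)^(3/4 : ℝ) * (n:ℝ)^(3/4 : ℝ))) := by
          apply mul_le_mul_of_nonneg_left _ (by positivity)
          exact mul_le_mul_of_nonneg_left s5 (by norm_num)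
      _ = _ := by ring
  -- middle
  have hmid : ∑ j ∈ range (J + 1), ∑ e ∈ (boxE M).filter (fun e => 32 * (2^j * N) < Mx e ∧
        Mx e ≤ 64 * (2^j * N)), f e ≤
      C0 / cA κ c0 K * (B * (11:ℝ)^(5/4 : ℝ)) * (4225 * (K:ℝ)^2) * (n:ℝ)^(3/4 : ℝ) * arm q M := by
    have han : arm q n ≤ C0 / cA κ c0 K * arm q M := by
      have t1 := h.W.upp n (by omega) le_rfl
      have t2 := arm_all h M
      refine t1.trans ?_
      rw [div_mul_eq_mul_div, le_div_iff₀ hcA]
      calc C0 * (n:ℝ)^(-(5/48) : ℝ) * cA κ c0 K = C0 * (cA κ c0 K * (n:ℝ)^(-(5/48) : ℝ)) := by ring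
        _ ≤ C0 * arm q M := mul_le_mul_of_nonneg_left t2 hC0.le
    obtain ⟨A, hA⟩ : ∃ A : ℝ, A = C0 / cA κ c0 K * arm q M *
      (B * ((11:ℝ)^(5/4 : ℝ) * (n:ℝ)^(-(5/4) : ℝ))) := ⟨_, rfl⟩
    have hA0 : 0 ≤ A := by rw [hA]; positivity
    have hj : ∀ j ∈ range (J + 1), ∑ e ∈ (boxE M).filter (fun e => 32 * (2^j * N) < Mx e ∧
        Mx e ≤ 64 * (2^j * N)), f e ≤ (33800 * (K:ℝ)^2 * (n:ℝ)^2 * A) * (1/16 * (1/2)^j) := by
      intro j hj
      rw [Finset.mem_range] at hj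
      have hjJ : 2^j * N ≤ 2^J * N :=
        Nat.mul_le_mul_right _ (Nat.pow_le_pow_right (by norm_num) (by omega))
      have hb : ∀ e ∈ (boxE M).filter (fun e => 32 * (2^j * N) < Mx e ∧ Mx e ≤ 64 * (2^j * N)),
          f e ≤ A * (1/4)^(2^(j + 2)) := by
        intro e he
        rw [Finset.mem_filter] at he
        rw [hf]
        refine (shell_edge h j (by omega) he.1 he.2.1 he.2.2).trans ?_
        rw [hA]
        have t3 : arm q n * (1/4)^(2^(j + 2)) * (B * ((11:ℝ)^(5/4 : ℝ) * (n:ℝ)^(-(5/4) : ℝ))) ≤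
            C0 / cA κ c0 K * arm q M * (1/4)^(2^(j + 2)) *
              (B * ((11:ℝ)^(5/4 : ℝ) * (n:ℝ)^(-(5/4) : ℝ))) := by
          apply mul_le_mul_of_nonneg_right _ (by positivity)
          exact mul_le_mul_of_nonneg_right han (by positivity)
        refine t3.trans (le_of_eq (by ring))
      have hs := Finset.sum_le_card_nsmul _ _ _ hb
      rw [nsmul_eq_mul] at hs
      have hc : (((boxE M).filter (fun e => 32 * (2^j * N) < Mx e ∧
          Mx e ≤ 64 * (2^j * N))).card : ℝ) ≤ 33800 * (K:ℝ)^2 * (n:ℝ)^2 * 4^j := by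
        have c1 := card_le M (64 * (2^j * N))
        have c2 : ((boxE M).filter (fun e => 32 * (2^j * N) < Mx e ∧
            Mx e ≤ 64 * (2^j * N))).card ≤ ((boxE M).filter (fun e =>
              Mx e ≤ 64 * (2^j * N))).card := by
          apply Finset.card_le_card
          intro e he
          rw [Finset.mem_filter] at he ⊢
          exact ⟨he.1, he.2.2⟩
        have c3 : (((boxE M).filter (fun e => 32 * (2^j * N) < Mx e ∧
            Mx e ≤ 64 * (2^j * N))).card : ℝ) ≤ (((boxE M).filter (fun e =>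
              Mx e ≤ 64 * (2^j * N))).card : ℝ) := by exact_mod_cast c2
        have c4 : (1:ℝ) ≤ 2^j * N := by
          have : 1 ≤ 2^j * N := Nat.one_le_iff_ne_zero.2 (by
            have : 0 < 2^j * N := Nat.mul_pos (by positivity) (by omega)
            omega)
          exact_mod_cast this
        have c5 : 2 * ((64 * (2^j * N) : ℕ) : ℝ) + 1 ≤ 130 * (2^j * (K * n)) := by
          push_cast
          have c6 : (N:ℝ) ≤ K * n := by exact_mod_cast hN2
          have c7 : (2:ℝ)^j * N ≤ 2^j * (K * n) := mul_le_mul_of_nonneg_left c6 (by positivity)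
          nlinarith
        have c8 : (2 * ((64 * (2^j * N) : ℕ) : ℝ) + 1)^2 ≤ (130 * (2^j * (K * n)))^2 :=
          pow_le_pow_left₀ (by positivity) c5 2
        have c9 : ((2:ℝ)^j)^2 = 4^j := by rw [← pow_mul, mul_comm, pow_mul]; norm_num
        calc _ ≤ _ := c3
          _ ≤ _ := c1
          _ ≤ 2 * (130 * (2^j * (K * n)))^2 := mul_le_mul_of_nonneg_left c8 (by norm_num)
          _ = 33800 * (K:ℝ)^2 * (n:ℝ)^2 * (2^j)^2 := by ring
          _ = _ := by rw [c9]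
      refine hs.trans ?_
      calc _ ≤ 33800 * (K:ℝ)^2 * (n:ℝ)^2 * 4^j * (A * (1/4)^(2^(j + 2))) :=
            mul_le_mul_of_nonneg_right hc (by positivity)
        _ = (33800 * (K:ℝ)^2 * (n:ℝ)^2 * A) * (4^j * (1/4)^(2^(j + 2))) := by ring
        _ ≤ _ := mul_le_mul_of_nonneg_left (quart j) (by positivity)
    refine (Finset.sum_le_sum hj).trans ?_
    rw [← Finset.mul_sum, ← Finset.mul_sum]
    have hg : ∑ i ∈ range (J + 1), ((1:ℝ)/2)^i ≤ 2 := by
      rw [geom_sum_eq (by norm_num)]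
      have : 0 < ((1:ℝ)/2)^(J + 1) := by positivity
      rw [div_le_iff_of_neg (by norm_num)]
      linarith
    have hn2 : (n:ℝ)^2 * (n:ℝ)^(-(5/4) : ℝ) = (n:ℝ)^(3/4 : ℝ) := by
      rw [← Real.rpow_natCast, ← Real.rpow_add hn0]; norm_num
    calc 33800 * (K:ℝ)^2 * (n:ℝ)^2 * A * (1/16 * ∑ i ∈ range (J + 1), ((1:ℝ)/2)^i)
        ≤ 33800 * (K:ℝ)^2 * (n:ℝ)^2 * A * (1/16 * 2) := by
          apply mul_le_mul_of_nonneg_left _ (by positivity)
          exact mul_le_mul_of_nonneg_left hg (by norm_num)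
      _ = C0 / cA κ c0 K * (B * (11:ℝ)^(5/4 : ℝ)) * (4225 * (K:ℝ)^2) *
            ((n:ℝ)^2 * (n:ℝ)^(-(5/4) : ℝ)) * arm q M := by rw [hA]; ring
      _ = _ := by rw [hn2]
  -- last
  have hlast : ∑ e ∈ (boxE M).filter (fun e => 64 * (2^J * N) < Mx e), f e ≤
      8 * (2 * (M : ℝ) + 1)^2 * (1/4)^(2^J) := by
    have hb : ∀ e ∈ (boxE M).filter (fun e => 64 * (2^J * N) < Mx e),
        f e ≤ 4 * (1/4)^(2^J) := by
      intro e he
      rw [Finset.mem_filter] at he
      rw [hf]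
      exact piv_last h0 hW.hi (by omega) h.far J 6 (by rw [hM]; norm_num; ring) he.1 (by omega)
    have hs := Finset.sum_le_card_nsmul _ _ _ hb
    rw [nsmul_eq_mul] at hs
    have c1 := card_le M M
    have c2 : ((boxE M).filter (fun e => 64 * (2^J * N) < Mx e)).card ≤
        ((boxE M).filter (fun e => Mx e ≤ M)).card := by
      apply Finset.card_le_card
      intro e he
      rw [Finset.mem_filter] at he ⊢
      exact ⟨he.1, Mx_le he.1⟩
    have c3 : (((boxE M).filter (fun e => 64 * (2^J * N) < Mx e)).card : ℝ) ≤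
        (((boxE M).filter (fun e => Mx e ≤ M)).card : ℝ) := by exact_mod_cast c2
    refine hs.trans ?_
    calc _ ≤ 2 * (2 * (M:ℝ) + 1)^2 * (4 * (1/4)^(2^J)) :=
          mul_le_mul_of_nonneg_right (c3.trans c1) (by positivity)
      _ = _ := by ring
  rw [hd]
  refine hsplit.trans ?_
  calc _ ≤ C1 κ B K * (64/3 * (33 * K : ℝ)^(3/4 : ℝ)) * (n:ℝ)^(3/4 : ℝ) * arm q M +
        (C0 / cA κ c0 K * (B * (11:ℝ)^(5/4 : ℝ)) * (4225 * (K:ℝ)^2) * (n:ℝ)^(3/4 : ℝ) * arm q M +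
          8 * (2 * (M : ℝ) + 1)^2 * (1/4)^(2^J)) :=
        add_le_add hnear (add_le_add hmid hlast)
    _ = _ := by ring

end Pool.Agent.W2helper77.OP
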