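import Pool.Agent.W2helper77.OP.UpEdge

/-!
Upper bound for the derivative of the one-arm probability in the supercritical phase, also beyond
the correlation length.
-/

set_option autoImplicit false
set_option maxHeartbeats 1000000

namespace Pool.Agent.W2helper77.OP

open H974 H31K Finset Pool.Agent.W2helper77.TP

/-- The scales: `n` is inside of the window, `N ≤ K n` is beyond the correlation length. -/
structure Sc (q κ c0 C0 B : ℝ) (K n N : ℕ) : Prop where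
  W : WinA q κ c0 C0 n
  k1 : κ ≤ 1
  B0 : 0 < B
  K1 : 1 ≤ K
  n64 : 64 ≤ n
  a4u : ∀ m : ℕ, 1 ≤ m → m ≤ n → H12S.a4 q m ≤ B * (m:ℝ)^(-(5/4) : ℝ)
  N1 : n ≤ N
  N2 : N ≤ K * n
  far : eps q N ≤ 1/100

/-- lower bound for all one-arm probabilities -/
noncomputable def cA (κ c0 : ℝ) (K : ℕ) : ℝ :=
  1/2 * (c0 * (2 * K : ℝ)^(-(5/48) : ℝ) * κ^(64 * K + 7))

theorem arm_all {q κ c0 C0 B : ℝ} {K n N : ℕ} (h : Sc q κ c0 C0 B K n N) (M : ℕ) :
    cA κ c0 K * (n:ℝ)^(-(5/48) : ℝ) ≤ arm q M := by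
  have hW := h.W.win
  have h0 : 0 ≤ q := by linarith [hW.lo]
  have h1 : q ≤ 1 := by linarith [hW.hi]
  have hk := hW.kpos
  have hn := h.n64
  have hN1 := h.N1
  have hN2 := h.N2
  have hK1 := h.K1
  have hc0 := h.W.cpos
  have hch := arm_chain h0 h1 (by omega) h.far M
  have hlow := arm_low h.W (by omega) (m := 2 * N) (by omega)
  have hn0 : (0:ℝ) < n := by exact_mod_cast (by omega : 0 < n)
  have hK0 : (0:ℝ) < K := by exact_mod_cast (by omega : 0 < K)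
  have e1 : (2 * K : ℝ)^(-(5/48) : ℝ) * (n:ℝ)^(-(5/48) : ℝ) ≤
      ((2 * N : ℕ) : ℝ)^(-(5/48) : ℝ) := by
    rw [← Real.mul_rpow (by positivity) hn0.le]
    apply Real.rpow_le_rpow_of_nonpos
    · have : 0 < 2 * N := by omega
      exact_mod_cast this
    · push_cast
      have : (N:ℝ) ≤ K * n := by exact_mod_cast hN2
      linarith
    · norm_num
  have e2 : κ^(64 * K + 7) ≤ κ^(2 * (2 * N / (n/8)) + 7) := by
    apply pow_le_pow_of_le_one hk.le h.k1
    have h8 : n ≤ 16 * (n/8) := by omega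
    have h9 : 0 < n/8 := by omega
    have : 2 * N / (n/8) ≤ 32 * K := by
      apply Nat.le_of_lt_succ
      rw [Nat.div_lt_iff_lt_mul h9]
      calc 2 * N ≤ 2 * (K * n) := Nat.mul_le_mul_left _ hN2
        _ ≤ 2 * (K * (16 * (n/8))) := Nat.mul_le_mul_left _ (Nat.mul_le_mul_left _ h8)
        _ = 32 * K * (n/8) := by ring
        _ < (32 * K).succ * (n/8) := Nat.mul_lt_mul_of_pos_right (Nat.lt_succ_self _) h9
    omega
  have e3 : c0 * ((2 * K : ℝ)^(-(5/48) : ℝ) * (n:ℝ)^(-(5/48) : ℝ)) * κ^(64 * K + 7) ≤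
      arm q (2 * N) := by
    refine le_trans ?_ hlow
    apply mul_le_mul _ e2 (by positivity) (by positivity)
    exact mul_le_mul_of_nonneg_left e1 hc0.le
  have e4 : cA κ c0 K * (n:ℝ)^(-(5/48) : ℝ) = 1/2 *
      (c0 * ((2 * K : ℝ)^(-(5/48) : ℝ) * (n:ℝ)^(-(5/48) : ℝ)) * κ^(64 * K + 7)) := by
    unfold cA; ring
  rw [e4]
  linarith

theorem cA_pos {κ c0 : ℝ} (hκ : 0 < κ) (hc : 0 < c0) {K : ℕ} (hK : 1 ≤ K) : 0 < cA κ c0 K := by
  have hK0 : (0:ℝ) < K := by exact_mod_cast (by omega : 0 < K)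
  unfold cA
  positivity

/-- the constant in the bound of the near edges -/
noncomputable def C1 (κ B : ℝ) (K : ℕ) : ℝ :=
  4 * (10:ℝ)^(5/4 : ℝ) + B * (400 * K : ℝ)^(5/4 : ℝ) / κ^4

theorem near_edge {q κ c0 C0 B : ℝ} {K n N : ℕ} (h : Sc q κ c0 C0 B K n N) {M : ℕ}
    (hM : 64 * N ≤ M) {e : Edg} (he : e ∈ boxE M) (hρ : Mx e ≤ 32 * N) :
    Pr (fun _ => q) ((boxE M).erase e) (PivA M e) ≤
      C1 κ B K * arm q M * ((Mx e : ℝ) + 1)^(-(5/4) : ℝ) := by
  have hW := h.W.win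
  have h0 : 0 ≤ q := by linarith [hW.lo]
  have h1 : q ≤ 1 := by linarith [hW.hi]
  have hk := hW.kpos
  have hn := h.n64
  have hN1 := h.N1
  have hN2 := h.N2
  have hK1 := h.K1
  have hB := h.B0
  have ha := arm_nonneg h0 h1 M
  have hK0 : (0:ℝ) < K := by exact_mod_cast (by omega : 0 < K)
  have hp : 0 < ((Mx e : ℝ) + 1)^(-(5/4) : ℝ) := by positivity
  rcases Nat.lt_or_ge (Mx e) 9 with h9 | h9
  · have h2 := piv_triv hW.lo h1 he
    have h3 : (1:ℝ) ≤ (10:ℝ)^(5/4 : ℝ) * ((Mx e : ℝ) + 1)^(-(5/4) : ℝ) := by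
      have h4 : (10:ℝ)^(-(5/4) : ℝ) ≤ ((Mx e : ℝ) + 1)^(-(5/4) : ℝ) := by
        apply Real.rpow_le_rpow_of_nonpos (by positivity) _ (by norm_num)
        have : (Mx e : ℝ) ≤ 9 := by exact_mod_cast h9.le
        linarith
      have h5 : (10:ℝ)^(5/4 : ℝ) * (10:ℝ)^(-(5/4) : ℝ) = 1 := by
        rw [← Real.rpow_add (by norm_num)]; norm_num
      calc (1:ℝ) = (10:ℝ)^(5/4 : ℝ) * (10:ℝ)^(-(5/4) : ℝ) := h5.symm
        _ ≤ _ := mul_le_mul_of_nonneg_left h4 (by positivity)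
    calc Pr (fun _ => q) ((boxE M).erase e) (PivA M e) ≤ 4 * arm q M := h2
      _ = 4 * arm q M * 1 := by ring
      _ ≤ 4 * arm q M * ((10:ℝ)^(5/4 : ℝ) * ((Mx e : ℝ) + 1)^(-(5/4) : ℝ)) :=
          mul_le_mul_of_nonneg_left h3 (by positivity)
      _ = 4 * (10:ℝ)^(5/4 : ℝ) * arm q M * ((Mx e : ℝ) + 1)^(-(5/4) : ℝ) := by ring
      _ ≤ _ := by
          apply mul_le_mul_of_nonneg_right _ hp.le
          apply mul_le_mul_of_nonneg_right _ ha
          unfold C1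
          have : 0 < B * (400 * K : ℝ)^(5/4 : ℝ) / κ^4 := by positivity
          linarith
  · obtain ⟨r, hr⟩ : ∃ r : ℕ, r = min (Mx e / 9) (n / 16) := ⟨_, rfl⟩
    have hr1 : 1 ≤ r := by rw [hr]; omega
    have hr9 : 9 * r ≤ Mx e := by rw [hr]; omega
    have hrn : 16 * r ≤ n := by rw [hr]; omega
    have had := adm (M := M) (r' := r) hr1 le_rfl he (by omega) (by omega)
    have h2 := piv_le_PB h0 h1 had (tt_cor hr1 e)
    have h3 := pb_near hW had (by omega)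
    have h4 := h.a4u (3 * r) (by omega) (by omega)
    have hPB : Pr (fun _ => q) (boxE M) (PB M (2 * r * (tt r e).1 + r) (2 * r * (tt r e).2 + r) r) ≤
        arm q M / κ^4 := by
      rw [le_div_iff₀ (by positivity), mul_comm]
      exact h3
    have hE : ((Mx e : ℝ) + 1) ≤ 400 * K * ((3 * r : ℕ) : ℝ) := by
      have h5 : Mx e + 1 ≤ 400 * K * (3 * r) := by
        rcases le_total (Mx e / 9) (n / 16) with h6 | h6
        · have h7 : r = Mx e / 9 := by rw [hr]; exact min_eq_left h6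
          have h8 : Mx e + 1 ≤ 18 * r := by omega
          have h10 : 18 * r ≤ 400 * K * (3 * r) := by nlinarith
          omega
        · have h7 : r = n / 16 := by rw [hr]; exact min_eq_right h6
          have h8 : n ≤ 32 * r := by omega
          have h10 : Mx e + 1 ≤ 33 * N := by omega
          have h11 : 33 * N ≤ 33 * (K * (32 * r)) :=
            Nat.mul_le_mul_left _ (hN2.trans (Nat.mul_le_mul_left _ h8))
          have h12 : 33 * (K * (32 * r)) ≤ 400 * K * (3 * r) := by nlinarith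
          omega
      exact_mod_cast h5
    have h6 : ((3 * r : ℕ) : ℝ)^(-(5/4) : ℝ) ≤
        (400 * K : ℝ)^(5/4 : ℝ) * ((Mx e : ℝ) + 1)^(-(5/4) : ℝ) := by
      have hr0 : (0:ℝ) < ((3 * r : ℕ) : ℝ) := by exact_mod_cast (by omega : 0 < 3 * r)
      have h7 : (400 * K * ((3 * r : ℕ) : ℝ))^(-(5/4) : ℝ) ≤ ((Mx e : ℝ) + 1)^(-(5/4) : ℝ) :=
        Real.rpow_le_rpow_of_nonpos (by positivity) hE (by norm_num)
      rw [Real.mul_rpow (by positivity) hr0.le] at h7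
      calc ((3 * r : ℕ) : ℝ)^(-(5/4) : ℝ) = (400 * K : ℝ)^(5/4 : ℝ) *
            ((400 * K : ℝ)^(-(5/4) : ℝ) * ((3 * r : ℕ) : ℝ)^(-(5/4) : ℝ)) := by
            rw [← mul_assoc, ← Real.rpow_add (by positivity)]; norm_num
        _ ≤ _ := mul_le_mul_of_nonneg_left h7 (by positivity)
    have h8 : H12S.a4 q (3 * r) ≤ B * ((400 * K : ℝ)^(5/4 : ℝ) * ((Mx e : ℝ) + 1)^(-(5/4) : ℝ)) :=
      h4.trans (mul_le_mul_of_nonneg_left h6 hB.le)
    have ha4 := H31K.a4_nonneg hW (3 * r)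
    calc Pr (fun _ => q) ((boxE M).erase e) (PivA M e) ≤ _ := h2
      _ ≤ arm q M / κ^4 * (B * ((400 * K : ℝ)^(5/4 : ℝ) * ((Mx e : ℝ) + 1)^(-(5/4) : ℝ))) :=
          mul_le_mul hPB h8 ha4 (by positivity)
      _ = B * (400 * K : ℝ)^(5/4 : ℝ) / κ^4 * arm q M * ((Mx e : ℝ) + 1)^(-(5/4) : ℝ) := by ring
      _ ≤ _ := by
          apply mul_le_mul_of_nonneg_right _ hp.le
          apply mul_le_mul_of_nonneg_right _ ha
          unfold C1
          have : 0 < 4 * (10:ℝ)^(5/4 : ℝ) := by positivity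
          linarith

theorem shell_edge {q κ c0 C0 B : ℝ} {K n N : ℕ} (h : Sc q κ c0 C0 B K n N) (j : ℕ) {M : ℕ}
    (hM : 128 * (2^j * N) ≤ M) {e : Edg} (he : e ∈ boxE M) (hρ : 32 * (2^j * N) < Mx e)
    (hρ2 : Mx e ≤ 64 * (2^j * N)) :
    Pr (fun _ => q) ((boxE M).erase e) (PivA M e) ≤
      arm q n * (1/4)^(2^(j + 2)) * (B * ((11:ℝ)^(5/4 : ℝ) * (n:ℝ)^(-(5/4) : ℝ))) := by
  have hW := h.W.win
  have h0 : 0 ≤ q := by linarith [hW.lo]
  have h1 : q ≤ 1 := by linarith [hW.hi]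
  have hn := h.n64
  have hN1 := h.N1
  have hB := h.B0
  obtain ⟨r, hr⟩ : ∃ r : ℕ, r = n / 16 := ⟨_, rfl⟩
  obtain ⟨R, hR⟩ : ∃ R : ℕ, R = 2^j * N := ⟨_, rfl⟩
  have hNR : N ≤ R := by rw [hR]; exact Nat.le_mul_of_pos_left _ (by positivity)
  rw [← hR] at hM hρ hρ2
  have hr1 : 1 ≤ r := by omega
  have hrR : r < R := by omega
  have had : Adm M (2 * r * (tt r e).1 + r) (2 * r * (tt r e).2 + r) r :=
    adm (M := M) (r' := r) hr1 le_rfl he (by omega) (by omega)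
  have had' : Adm M (2 * r * (tt r e).1 + r) (2 * r * (tt r e).2 + r) R :=
    adm (M := M) (r' := R) hr1 hrR.le he (by omega) (by omega)
  have h2 := piv_le_PB h0 h1 had (tt_cor hr1 e)
  have hd : Disjoint (Bg (2 * r * (tt r e).1 + r) (2 * r * (tt r e).2 + r) R) (boxE n) := by
    rw [Finset.disjoint_left]
    rintro ⟨x, y, b⟩ g1 g2
    obtain ⟨⟨k1, k2⟩, k3, k4⟩ := tt_spec hr1 e
    unfold Mx at hρ
    unfold Bg at g1
    unfold boxE at g2
    generalize 2 * (r:ℤ) * (tt r e).1 + r = c1 at *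
    generalize 2 * (r:ℤ) * (tt r e).2 + r = c2 at *
    cases b
    · rw [mem_RE_false] at g1 g2; omega
    · rw [mem_RE_true] at g1 g2; omega
  have h3 := pb_far h0 h1 (by omega) h.far j (n := n) (M := M) (r := r) (by rw [← hR]; exact hrR)
    (by rw [← hR]; exact had') (by omega) (by rw [← hR]; exact hd)
  have h4 := h.a4u (3 * r) (by omega) (by omega)
  have h5 : ((3 * r : ℕ) : ℝ)^(-(5/4) : ℝ) ≤ (11:ℝ)^(5/4 : ℝ) * (n:ℝ)^(-(5/4) : ℝ) := by
    have hn0 : (0:ℝ) < n := by exact_mod_cast (by omega : 0 < n)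
    have h6 : (n:ℝ)/11 ≤ ((3 * r : ℕ) : ℝ) := by
      rw [div_le_iff₀ (by norm_num)]
      have : n ≤ 3 * r * 11 := by omega
      exact_mod_cast this
    calc ((3 * r : ℕ) : ℝ)^(-(5/4) : ℝ) ≤ ((n:ℝ)/11)^(-(5/4) : ℝ) :=
          Real.rpow_le_rpow_of_nonpos (by positivity) h6 (by norm_num)
      _ = _ := by
          rw [Real.div_rpow hn0.le (by norm_num), Real.rpow_neg (by norm_num : (0:ℝ) ≤ 11)]
          field_simp
  have ha4 := H31K.a4_nonneg hW (3 * r)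
  have han := arm_nonneg h0 h1 n
  calc Pr (fun _ => q) ((boxE M).erase e) (PivA M e) ≤ _ := h2
    _ ≤ _ := mul_le_mul h3 (h4.trans (mul_le_mul_of_nonneg_left h5 hB.le)) ha4 (by positivity)

/-! ### Counting -/

theorem card_le (M R : ℕ) : (((boxE M).filter (fun e => Mx e ≤ R)).card : ℝ) ≤
    2 * (2 * (R:ℝ) + 1)^2 := by
  have h1 : (boxE M).filter (fun e => Mx e ≤ R) ⊆
      Finset.Icc (-(R:ℤ)) R ×ˢ (Finset.Icc (-(R:ℤ)) R ×ˢ (Finset.univ : Finset Bool)) := by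
    rintro ⟨x, y, b⟩ h
    rw [Finset.mem_filter] at h
    obtain ⟨-, h2⟩ := h
    unfold Mx at h2
    simp only at h2
    rw [Finset.mem_product, Finset.mem_product, Finset.mem_Icc, Finset.mem_Icc]
    refine ⟨⟨?_, ?_⟩, ⟨?_, ?_⟩, Finset.mem_univ _⟩ <;> simp only <;> omega
  have h2 := Finset.card_le_card h1
  rw [Finset.card_product, Finset.card_product, Int.card_Icc, Finset.card_univ,
    Fintype.card_bool] at h2
  have e : ((R:ℤ) + 1 - -(R:ℤ)).toNat = 2 * R + 1 := by omega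
  rw [e] at h2
  have h3 : (((boxE M).filter (fun e => Mx e ≤ R)).card : ℝ) ≤
      (((2 * R + 1) * ((2 * R + 1) * 2) : ℕ) : ℝ) := by exact_mod_cast h2
  push_cast at h3
  nlinarith

theorem sum_radial {M R : ℕ} {g : ℕ → ℝ} (hg : ∀ ρ, 0 ≤ g ρ) :
    ∑ e ∈ (boxE M).filter (fun e => Mx e ≤ R), g (Mx e) ≤
      ∑ ρ ∈ range (R + 1), 16 * ((ρ:ℝ) + 1) * g ρ := by
  classical
  rw [← Finset.sum_fiberwise_of_maps_to (g := Mx) (t := range (R + 1))
    (fun e he => by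
      rw [Finset.mem_filter] at he
      rw [Finset.mem_range]
      omega)]
  apply Finset.sum_le_sum
  intro ρ _
  have h1 : ∑ e ∈ ((boxE M).filter (fun e => Mx e ≤ R)).filter (fun e => Mx e = ρ), g (Mx e) =
      ((((boxE M).filter (fun e => Mx e ≤ R)).filter (fun e => Mx e = ρ)).card : ℝ) * g ρ := by
    rw [Finset.sum_congr rfl (g := fun _ => g ρ) (fun e he => by
      rw [Finset.mem_filter] at he
      rw [he.2]), Finset.sum_const, nsmul_eq_mul]
  rw [h1]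
  apply mul_le_mul_of_nonneg_right _ (hg ρ)
  have h2 : (((boxE M).filter (fun e => Mx e ≤ R)).filter (fun e => Mx e = ρ)).card ≤
      ((t10_T ρ) ×ˢ (Finset.univ : Finset Bool)).card := by
    apply Finset.card_le_card_of_injOn (fun e => ((e.1, e.2.1), e.2.2))
    · intro e he
      rw [Finset.mem_coe, Finset.mem_filter] at he
      rw [Finset.mem_coe, Finset.mem_product]
      refine ⟨?_, Finset.mem_univ _⟩
      have h3 := t10_T_mem (e.1, e.2.1)
      have h4 := he.2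
      unfold Mx at h4
      simp only at h3
      rw [h4] at h3
      exact h3
    · rintro ⟨a, b, c⟩ _ ⟨a', b', c'⟩ _ h3
      simp only [Prod.mk.injEq] at h3
      obtain ⟨⟨rfl, rfl⟩, rfl⟩ := h3
      rfl
  rw [Finset.card_product, Finset.card_univ, Fintype.card_bool] at h2
  have h3 : ((((boxE M).filter (fun e => Mx e ≤ R)).filter (fun e => Mx e = ρ)).card : ℝ) ≤
      (((t10_T ρ).card * 2 : ℕ) : ℝ) := by exact_mod_cast h2
  push_cast at h3
  have h4 := t10_T_card ρ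
  linarith

theorem pow_sum (R : ℕ) : ∑ ρ ∈ range R, ((ρ:ℝ) + 1)^(-(1/4) : ℝ) ≤ 4/3 * (R:ℝ)^(3/4 : ℝ) := by
  induction R with
  | zero => simp
  | succ R ih =>
    rw [Finset.sum_range_succ]
    have hx : (0:ℝ) < (R:ℝ) + 1 := by positivity
    have h1 : (R:ℝ)^(3/4 : ℝ) ≤ ((R:ℝ) + 1)^(3/4 : ℝ) - 3/4 * ((R:ℝ) + 1)^(-(1/4) : ℝ) := by
      have h2 := rpow_one_add_le_one_add_mul_self (s := -(1/((R:ℝ) + 1)))
        (by
          rw [neg_le_neg_iff, div_le_one hx]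
          have : (0:ℝ) ≤ R := Nat.cast_nonneg _
          linarith) (p := 3/4) (by norm_num) (by norm_num)
      have e1 : 1 + -(1/((R:ℝ) + 1)) = R / ((R:ℝ) + 1) := by field_simp; ring
      rw [e1, Real.div_rpow (Nat.cast_nonneg _) hx.le, div_le_iff₀ (by positivity)] at h2
      have e2 : ((R:ℝ) + 1)^(-(1/4) : ℝ) = ((R:ℝ) + 1)^(3/4 : ℝ) * (1/((R:ℝ) + 1)) := by
        rw [show (-(1/4) : ℝ) = 3/4 - 1 by norm_num, Real.rpow_sub_one hx.ne']
        ring
      rw [e2]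
      calc (R:ℝ)^(3/4 : ℝ) ≤ (1 + 3/4 * -(1/((R:ℝ) + 1))) * ((R:ℝ) + 1)^(3/4 : ℝ) := h2
        _ = _ := by ring
    push_cast
    linarith

end Pool.Agent.W2helper77.OP
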